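import Mathlib

/-!
# The final optimisation (helper39, MP_6c3374)
-/

namespace Pool.Agent.H39.QT

/-- For `p ≥ 3` the number `x = sqrt (log₂ p / log₂ (log₂ p))` is either small or there is a
positive integer `K ≥ x / 18000` with `2 ^ (544000 * K ^ 2 * (log₂ K + 6) + 3) ≤ p`. -/
lemma exists_K {p : ℕ} (hp : 3 ≤ p) :
    0 ≤ Real.sqrt (Real.logb 2 p / Real.logb 2 (Real.logb 2 p)) ∧
    (Real.sqrt (Real.logb 2 p / Real.logb 2 (Real.logb 2 p)) < 3000 ∨
      ∃ K : ℕ, 1 ≤ K ∧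
        Real.sqrt (Real.logb 2 p / Real.logb 2 (Real.logb 2 p)) / 18000 ≤ K ∧
        2 ^ (544000 * K ^ 2 * (Nat.log 2 K + 6) + 3) ≤ p) := by
  have hpR : (3 : ℝ) ≤ (p : ℝ) := by exact_mod_cast hp
  obtain ⟨n, hn⟩ : ∃ n, n = Real.logb 2 p := ⟨_, rfl⟩
  obtain ⟨m, hm⟩ : ∃ m, m = Real.logb 2 n := ⟨_, rfl⟩
  rw [← hn, ← hm]
  -- `n ≥ 3 / 2` and `m ≥ 1 / 2`
  have hn1 : (3 : ℝ) / 2 ≤ n := by
    rw [hn, Real.le_logb_iff_rpow_le (by norm_num) (by linarith)]
    refine le_trans ?_ hpR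
    have h1 : (2 : ℝ) ^ ((3 : ℝ) / 2) = Real.sqrt 8 := by
      rw [Real.sqrt_eq_rpow, show (8 : ℝ) = 2 ^ (3 : ℝ) by norm_num, ← Real.rpow_mul (by norm_num)]
      norm_num
    rw [h1, Real.sqrt_le_left (by norm_num)]
    norm_num
  have hm1 : (1 : ℝ) / 2 ≤ m := by
    rw [hm, Real.le_logb_iff_rpow_le (by norm_num) (by linarith)]
    refine le_trans ?_ hn1
    have h1 : (2 : ℝ) ^ ((1 : ℝ) / 2) = Real.sqrt 2 := by rw [Real.sqrt_eq_rpow]
    rw [h1, Real.sqrt_le_left (by norm_num)]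
    norm_num
  have hmpos : 0 < m := by linarith
  have hnpos : 0 < n := by linarith
  set x := Real.sqrt (n / m) with hx
  have hx0 : 0 ≤ x := Real.sqrt_nonneg _
  have hxx : x ^ 2 = n / m := Real.sq_sqrt (by positivity)
  refine ⟨hx0, ?_⟩
  rcases lt_or_ge x 3000 with hlt | hge
  · exact Or.inl hlt
  · right
    obtain ⟨K, hKdef⟩ : ∃ K : ℕ, K = ⌊x / 3000⌋₊ := ⟨_, rfl⟩
    have hx3 : 1 ≤ x / 3000 := by rw [le_div_iff₀ (by norm_num)]; linarith
    have hK1 : 1 ≤ K := by rw [hKdef]; exact Nat.le_floor (by simpa using hx3)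
    have hKx : (K : ℝ) ≤ x / 3000 := by rw [hKdef]; exact Nat.floor_le (by linarith)
    have hKx2 : x / 3000 < K + 1 := by rw [hKdef]; exact Nat.lt_floor_add_one _
    have hK1R : (1 : ℝ) ≤ K := by exact_mod_cast hK1
    -- `m ≥ 1`
    have hm2 : 1 ≤ m := by
      by_contra hcon
      push Not at hcon
      have h1 : n < 2 := by
        rw [hm, Real.logb_lt_iff_lt_rpow (by norm_num) hnpos] at hcon
        simpa using hcon
      have h2 : n / m < 4 := by
        rw [div_lt_iff₀ hmpos]; linarith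
      nlinarith
    -- size of `n`
    have hbig : (9000000 : ℝ) * m ≤ n := by
      have h1 : (9000000 : ℝ) ≤ n / m := by rw [← hxx]; nlinarith
      rwa [le_div_iff₀ hmpos] at h1
    -- `log₂ K ≤ m / 2`
    have hlogK : (Nat.log 2 K : ℝ) ≤ m / 2 := by
      have h1 : ((2 : ℝ) ^ (Nat.log 2 K)) ≤ K := by
        exact_mod_cast Nat.pow_log_le_self 2 (by omega)
      have h2 : ((2 : ℝ) ^ (Nat.log 2 K)) ^ 2 ≤ n := by
        have h3 : ((2 : ℝ) ^ (Nat.log 2 K)) ^ 2 ≤ (x / 3000) ^ 2 :=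
          pow_le_pow_left₀ (by positivity) (h1.trans hKx) 2
        have h4 : (x / 3000) ^ 2 = n / m / 9000000 := by rw [div_pow, hxx]; norm_num
        have h5 : n / m ≤ n := div_le_self hnpos.le hm2
        have h6 : n / m / 9000000 ≤ n := by
          rw [div_le_iff₀ (by norm_num)]; linarith
        linarith
      rw [← pow_mul] at h2
      have h3 := Real.logb_le_logb_of_le (b := 2) (by norm_num) (by positivity) h2
      rw [Real.logb_pow, Real.logb_self_eq_one (by norm_num), mul_one, ← hm] at h3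
      push_cast at h3
      linarith
    -- the range of `p`
    have hrange : 2 ^ (544000 * K ^ 2 * (Nat.log 2 K + 6) + 3) ≤ p := by
      have h1 : ((544000 * K ^ 2 * (Nat.log 2 K + 6) + 3 : ℕ) : ℝ) ≤ n := by
        push_cast
        have h2 : (K : ℝ) ^ 2 ≤ n / m / 9000000 := by
          have h3 : (K : ℝ) ^ 2 ≤ (x / 3000) ^ 2 := pow_le_pow_left₀ (by linarith) hKx 2
          have h4 : (x / 3000) ^ 2 = n / m / 9000000 := by rw [div_pow, hxx]; norm_num
          linarith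
        have h3 : (Nat.log 2 K : ℝ) + 6 ≤ 7 * m := by linarith
        have h4 : (K : ℝ) ^ 2 * ((Nat.log 2 K : ℝ) + 6) ≤ (n / m / 9000000) * (7 * m) :=
          mul_le_mul h2 h3 (by positivity) (by positivity)
        have h5 : (n / m / 9000000) * (7 * m) = n * (7 / 9000000) := by
          field_simp
        have h6 : (544000 : ℝ) * K ^ 2 * ((Nat.log 2 K : ℝ) + 6) =
          544000 * ((K : ℝ) ^ 2 * ((Nat.log 2 K : ℝ) + 6)) := by ring
        rw [h6]
        have h7 : (9000000 : ℝ) ≤ n := by linarith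
        linarith
      have h2 : (2 : ℝ) ^ (544000 * K ^ 2 * (Nat.log 2 K + 6) + 3) ≤ p := by
        rw [hn, Real.le_logb_iff_rpow_le (by norm_num) (by linarith), Real.rpow_natCast] at h1
        exact h1
      exact_mod_cast h2
    exact ⟨K, hK1, by linarith, hrange⟩

end Pool.Agent.H39.QT
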