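import Pool.Agent.H39.QT.PhiB

/-!
# Iteration of the twist (helper39, MP_6c3374)
-/

namespace Pool.Agent.H39.QT

open Pool.Agent.H39 Finset

open Classical in
/-- The twisting lemma. -/
lemma twist3 {r k : ℕ} (hg : Good r k) {D d q t : ℕ} (hD : 1 ≤ D) (hq : 1 ≤ q)
    (hqf : 80 * q ≤ k) (hd : 2 * d ≤ k)
    (hφ : ∀ (M : Type) [Fintype M] [DecidableEq M] (τ : M → ℕ), Fintype.card M = r →
      Function.Injective τ → ∃ φ, Hits D d (sgF t) τ φ) :
    Good (3 ^ t * r + 3 ^ t * q) (3 ^ t * k + 3 ^ t * q / D) := by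
  obtain ⟨M, _, Q, hM, hQ⟩ := hg
  obtain ⟨T, hT⟩ := exists_bound Q.τ
  obtain ⟨K0, hK0⟩ := exists_bound Q.θ
  obtain ⟨φ, hφ'⟩ := hφ M Q.τ hM Q.τ_inj
  have hK : ∀ a, Q.θ a < max K0 q := fun a => lt_of_lt_of_le (hK0 a) (le_max_left _ _)
  refine ⟨_, inferInstance, tw3 q Q T (max K0 q) (sgF t) (sgF_inj t) (sgF_lt t) hT hK
    (le_max_right _ _) φ, ?_, ?_⟩
  · rw [Fintype.card_sum, Fintype.card_prod, Fintype.card_prod, Fintype.card_fin,
      Fintype.card_fin, hM]
  · exact bdd_of_hits Q k hQ D q d hD hq hqf hd hφ'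

/-- The number of scales. -/
def tK (K : ℕ) : ℕ := (Nat.log 2 K + 4) * (60 * K + 40)

/-- One step of the iteration. -/
lemma step3 {K r k : ℕ} (hK : 1 ≤ K) (hk : 1 ≤ k) (hr : 1 ≤ r) (hg : Good r k) (h : r ≤ K * k) :
    ∃ r' k', Good r' k' ∧ 1 ≤ k' ∧ 1 ≤ r' ∧ k' ≤ 81 * 3 ^ tK K * k ∧
      r' ≤ 80 * 3 ^ tK K * r + 3 ^ tK K * k ∧
      (164 * r + k) * k' ≤ 164 * (r' * k) := by
  have hg80 := good_mul hg 80 (by norm_num)
  obtain ⟨N, hN⟩ : ∃ N, N = 3 ^ tK K := ⟨_, rfl⟩
  have hNpos : 0 < N := by rw [hN]; positivity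
  have ha : 2 * (2 * K) ≤ 2 ^ (Nat.log 2 K + 3) := by
    have h1 := Nat.lt_pow_succ_log_self (b := 2) (by norm_num) K
    have h2 : 2 ^ (Nat.log 2 K + 3) = 4 * 2 ^ (Nat.log 2 K + 1) := by
      rw [pow_add, pow_add]; ring
    rw [h2]
    omega
  have hlog : Nat.log 2 K ≤ K := Nat.log_le_self 2 K
  have hgood := twist3 (q := k) (D := 2 * K) (d := 40 * k) (t := tK K) hg80 (by omega)
    hk le_rfl (by omega) (by
      intro M _ _ τ hM hτ
      apply exists_hits_B hτ (J := 2 * K + 1) (a := Nat.log 2 K + 3) (t1 := 60 * K + 40)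
        (by omega) _ ha (by ring) (by omega) (by unfold tK; ring)
      rw [hM]
      have h1 : 40 * k * (2 * K + 1) = 80 * (K * k) + 40 * k := by ring
      omega)
  rw [← hN] at hgood ⊢
  set X := N * k / (2 * K) with hX
  have hXD : X * (2 * K) ≤ N * k := Nat.div_mul_le_self _ _
  have hXN : X ≤ N * k := Nat.div_le_self _ _
  refine ⟨_, _, hgood, ?_, ?_, ?_, ?_, ?_⟩
  · have h1 : 1 ≤ N * (80 * k) := Nat.mul_pos hNpos (by omega)
    exact h1.trans (Nat.le_add_right _ _)
  · have : 1 ≤ N * (80 * r) := Nat.mul_pos hNpos (by omega)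
    omega
  · have : 81 * N * k = N * (80 * k) + N * k := by ring
    omega
  · apply le_of_eq
    ring
  · have h1 : (164 * r + k) * X ≤ (165 * K * k) * X := by
      apply Nat.mul_le_mul_right
      have h2 : k ≤ K * k := Nat.le_mul_of_pos_left k hK
      have h3 : 165 * K * k = 164 * (K * k) + K * k := by ring
      omega
    have h2 : 2 * ((165 * K * k) * X) = 165 * k * (X * (2 * K)) := by ring
    have h3 : 165 * k * (X * (2 * K)) ≤ 165 * k * (N * k) := Nat.mul_le_mul_left _ hXD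
    have h4 : (164 * r + k) * (N * (80 * k) + X) = 164 * (N * (80 * r) * k) + 80 * (k * (N * k))
        + (164 * r + k) * X := by ring
    have h5 : 164 * ((N * (80 * r) + N * k) * k) = 164 * (N * (80 * r) * k)
        + 164 * (k * (N * k)) := by ring
    have h6 : 165 * k * (N * k) = 165 * (k * (N * k)) := by ring
    rw [h4, h5]
    omega

/-- Iteration. -/
lemma iter3 {K : ℕ} (hK : 1 ≤ K) (i : ℕ) :
    ∃ r k, 1 ≤ r ∧ 1 ≤ k ∧ Good r k ∧ k ≤ r ∧ r ≤ (81 * 3 ^ tK K) ^ i ∧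
      (K * k ≤ r ∨ (164 + i) * k ≤ 164 * r) := by
  induction i with
  | zero => exact ⟨1, 1, le_rfl, le_rfl, good_one, le_rfl, by norm_num, Or.inr (by norm_num)⟩
  | succ i ih =>
    obtain ⟨r, k, hr, hk, hg, hkr, hb, h⟩ := ih
    have hpos : 0 < 81 * 3 ^ tK K := by positivity
    by_cases hKr : K * k ≤ r
    · refine ⟨r, k, hr, hk, hg, hkr, ?_, Or.inl hKr⟩
      exact hb.trans (Nat.pow_le_pow_right hpos (Nat.le_succ i))
    · push Not at hKr
      have h' := h.resolve_left (by omega)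
      obtain ⟨r', k', hg', hk', hr', _, hb', hinc⟩ := step3 hK hk hr hg hKr.le
      have hkr' : k' ≤ r' := by
        have h1 : (164 * k) * k' ≤ (164 * r) * k' := Nat.mul_le_mul_right _ (by omega)
        have h2 : (164 * r) * k' ≤ (164 * r + k) * k' := Nat.mul_le_mul_right _ (by omega)
        have h3 : k' * (164 * k) ≤ r' * (164 * k) := by
          calc k' * (164 * k) = (164 * k) * k' := by ring
            _ ≤ 164 * (r' * k) := (h1.trans h2).trans hinc
            _ = r' * (164 * k) := by ring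
        exact Nat.le_of_mul_le_mul_right h3 (by omega)
      refine ⟨r', k', hr', hk', hg', hkr', ?_, Or.inr ?_⟩
      · calc r' ≤ 80 * 3 ^ tK K * r + 3 ^ tK K * k := hb'
          _ ≤ 80 * 3 ^ tK K * r + 3 ^ tK K * r :=
              Nat.add_le_add_left (Nat.mul_le_mul_left _ hkr) _
          _ = 81 * 3 ^ tK K * r := by ring
          _ ≤ 81 * 3 ^ tK K * (81 * 3 ^ tK K) ^ i := Nat.mul_le_mul_left _ hb
          _ = (81 * 3 ^ tK K) ^ (i + 1) := by rw [pow_succ]; ring
      · have h1 : ((164 + i) * k + k) * k' ≤ (164 * r + k) * k' :=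
          Nat.mul_le_mul_right _ (by omega)
        have h2 : ((164 + (i + 1)) * k') * k ≤ (164 * r') * k := by
          calc ((164 + (i + 1)) * k') * k = ((164 + i) * k + k) * k' := by ring
            _ ≤ (164 * r + k) * k' := h1
            _ ≤ 164 * (r' * k) := hinc
            _ = (164 * r') * k := by ring
        exact Nat.le_of_mul_le_mul_right h2 hk

/-- The ratio `K` is reached at a moderate size. -/
lemma good_ratio3 {K : ℕ} (hK : 1 ≤ K) :
    ∃ r k, 1 ≤ r ∧ 1 ≤ k ∧ Good r k ∧ K * k ≤ r ∧ k ≤ r ∧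
      r ≤ 2 ^ (34000 * K ^ 2 * (Nat.log 2 K + 4)) := by
  obtain ⟨r, k, hr, hk, hg, hkr, hb, h⟩ := iter3 hK (164 * K)
  refine ⟨r, k, hr, hk, hg, ?_, hkr, ?_⟩
  · rcases h with h | h
    · exact h
    · have h1 : 164 * (K * k) ≤ 164 * r := by
        calc 164 * (K * k) ≤ (164 + 164 * K) * k := by
              have : (164 + 164 * K) * k = 164 * k + 164 * (K * k) := by ring
              omega
          _ ≤ 164 * r := h
      omega
  · refine hb.trans ?_
    have h1 : 81 * 3 ^ tK K ≤ 2 ^ (7 + 2 * tK K) := by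
      rw [pow_add, pow_mul]
      exact Nat.mul_le_mul (by norm_num) (Nat.pow_le_pow_left (by norm_num) _)
    calc (81 * 3 ^ tK K) ^ (164 * K) ≤ (2 ^ (7 + 2 * tK K)) ^ (164 * K) :=
          Nat.pow_le_pow_left h1 _
      _ = 2 ^ ((7 + 2 * tK K) * (164 * K)) := by rw [← pow_mul]
      _ ≤ 2 ^ (34000 * K ^ 2 * (Nat.log 2 K + 4)) := by
        apply Nat.pow_le_pow_right (by norm_num)
        set l := Nat.log 2 K + 4 with hl
        have hl4 : 4 ≤ l := by omega
        have h2 : tK K = l * (60 * K + 40) := by unfold tK; rw [hl]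
        rw [h2]
        have h3 : 7 + 2 * (l * (60 * K + 40)) ≤ 207 * (K * l) := by nlinarith
        calc (7 + 2 * (l * (60 * K + 40))) * (164 * K) ≤ (207 * (K * l)) * (164 * K) :=
              Nat.mul_le_mul_right _ h3
          _ = 33948 * (K ^ 2 * l) := by ring
          _ ≤ 34000 * (K ^ 2 * l) := Nat.mul_le_mul_right _ (by norm_num)
          _ = 34000 * K ^ 2 * l := by ring

end Pool.Agent.H39.QT
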