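import Mathlib

/-!
# Counting bilinear forms (helper39, MP_6c3374)
-/

namespace Pool.Agent.H39.QT

open Finset

variable {M : Type} [Fintype M] [DecidableEq M]

/-- The bilinear form of a matrix. -/
def bf (X : M × M → ZMod 2) (v w : M → ZMod 2) : ZMod 2 := ∑ e : M × M, X e * (v e.1 * w e.2)

/-- `v` is a family with the distinct leading coordinates `a` (the earliest nonzero ones). -/
structure Lead {d : ℕ} (τ : M → ℕ) (v : Fin d → M → ZMod 2) (a : Fin d → M) : Prop where
  inj : Function.Injective a
  one : ∀ i, v i (a i) = 1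
  zero : ∀ i m, τ m < τ (a i) → v i m = 0

lemma bf_add_left (X : M × M → ZMod 2) (v v' w : M → ZMod 2) :
    bf X (v + v') w = bf X v w + bf X v' w := by
  unfold bf
  rw [← Finset.sum_add_distrib]
  apply Finset.sum_congr rfl
  intro e _
  simp only [Pi.add_apply]
  ring

lemma bf_add_right (X : M × M → ZMod 2) (v w w' : M → ZMod 2) :
    bf X v (w + w') = bf X v w + bf X v w' := by
  unfold bf
  rw [← Finset.sum_add_distrib]
  apply Finset.sum_congr rfl
  intro e _
  simp only [Pi.add_apply]
  ring

lemma bf_zero_left (X : M × M → ZMod 2) (w : M → ZMod 2) : bf X 0 w = 0 := by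
  simp [bf]

lemma bf_zero_right (X : M × M → ZMod 2) (v : M → ZMod 2) : bf X v 0 = 0 := by
  simp [bf]

lemma zmod2_ne_zero {x : ZMod 2} (h : x ≠ 0) : x = 1 := by
  revert h; revert x; decide

/-- A matrix supported on the leading pairs that is orthogonal to everything vanishes. -/
lemma eq_zero_of_orth {d : ℕ} {τ : M → ℕ} (hτ : Function.Injective τ)
    {v w : Fin d → M → ZMod 2} {a b : Fin d → M} (hv : Lead τ v a) (hw : Lead τ w b)
    (X : M × M → ZMod 2) (hsupp : ∀ e, X e ≠ 0 → ∃ i j, e = (a i, b j))
    (h : ∀ i j, bf X (v i) (w j) = 0) : ∀ e, X e = 0 := by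
  classical
  by_contra hcon
  push Not at hcon
  -- choose a nonzero entry with latest first coordinate, then latest second coordinate
  have hne : (Finset.univ.filter (fun e : M × M => X e ≠ 0)).Nonempty := by
    obtain ⟨e, he⟩ := hcon
    exact ⟨e, by simp [he]⟩
  obtain ⟨e0, he0, hmax0⟩ := Finset.exists_max_image _ (fun e : M × M => τ e.1) hne
  simp only [Finset.mem_filter, Finset.mem_univ, true_and] at he0 hmax0
  have hne1 : (Finset.univ.filter (fun e : M × M => X e ≠ 0 ∧ e.1 = e0.1)).Nonempty :=
    ⟨e0, by simp [he0]⟩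
  obtain ⟨e1, he1, hmax1⟩ := Finset.exists_max_image _ (fun e : M × M => τ e.2) hne1
  simp only [Finset.mem_filter, Finset.mem_univ, true_and] at he1 hmax1
  obtain ⟨i, j, hij⟩ := hsupp e1 he1.1
  have hb := h i j
  unfold bf at hb
  rw [Finset.sum_eq_single e1] at hb
  · rw [zmod2_ne_zero he1.1] at hb
    have h1 : e1.1 = a i := by rw [hij]
    have h2 : e1.2 = b j := by rw [hij]
    rw [h1, h2, hv.one, hw.one] at hb
    exact absurd hb (by decide)
  · intro e _ hee
    by_contra hcon2
    have hX : X e ≠ 0 := fun h0 => hcon2 (by rw [h0, zero_mul])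
    have hvi : v i e.1 ≠ 0 := fun h0 => hcon2 (by rw [h0, zero_mul, mul_zero])
    have hwj : w j e.2 ≠ 0 := fun h0 => hcon2 (by rw [h0, mul_zero, mul_zero])
    have h1 : e1.1 = a i := by rw [hij]
    have h2 : e1.2 = b j := by rw [hij]
    have h3 : τ (a i) ≤ τ e.1 := by
      by_contra h4
      exact hvi (hv.zero i e.1 (not_le.mp h4))
    have h4 : τ (b j) ≤ τ e.2 := by
      by_contra h5
      exact hwj (hw.zero j e.2 (not_le.mp h5))
    have h5 : τ e.1 ≤ τ e0.1 := hmax0 e hX
    have h6 : e.1 = e0.1 := by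
      apply hτ
      apply le_antisymm h5
      rw [← he1.2, h1]
      exact h3
    have h7 : τ e.2 ≤ τ e1.2 := hmax1 e ⟨hX, h6⟩
    have h8 : e.2 = e1.2 := by
      apply hτ
      apply le_antisymm h7
      rw [h2]
      exact h4
    apply hee
    exact Prod.ext (h6.trans he1.2.symm) h8
  · intro hcon2
    exact absurd (Finset.mem_univ _) hcon2

open Classical in
/-- The number of matrices orthogonal to two leading families. -/
lemma card_orth {d : ℕ} {τ : M → ℕ} (hτ : Function.Injective τ)
    {v w : Fin d → M → ZMod 2} {a b : Fin d → M} (hv : Lead τ v a) (hw : Lead τ w b) :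
    (Finset.univ.filter (fun X : M × M → ZMod 2 => ∀ i j, bf X (v i) (w j) = 0)).card
      * 2 ^ (d ^ 2) ≤ Fintype.card (M × M → ZMod 2) := by
  set E : Finset (M × M) := Finset.univ.image (fun p : Fin d × Fin d => (a p.1, b p.2)) with hE
  have hEc : E.card = d ^ 2 := by
    rw [hE, Finset.card_image_of_injective, Finset.card_univ, Fintype.card_prod, Fintype.card_fin]
    · ring
    · rintro ⟨i, j⟩ ⟨i', j'⟩ h
      simp only [Prod.mk.injEq] at h
      rw [hv.inj h.1, hw.inj h.2]
  have hinj : (Finset.univ.filter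
      (fun X : M × M → ZMod 2 => ∀ i j, bf X (v i) (w j) = 0)).card ≤
      Fintype.card ({e : M × M // e ∉ E} → ZMod 2) := by
    rw [← Finset.card_univ]
    apply Finset.card_le_card_of_injOn (fun X => fun e : {e : M × M // e ∉ E} => X e.1)
    · intro X _
      exact Finset.mem_coe.mpr (Finset.mem_univ _)
    · intro X hX Y hY hXY
      simp only [Finset.coe_filter, Finset.mem_univ, true_and, Set.mem_ofPred_eq] at hX hY
      have h1 : ∀ e, e ∉ E → X e = Y e := fun e he => congrFun hXY ⟨e, he⟩
      have h2 := eq_zero_of_orth hτ hv hw (X + Y) (by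
        intro e he
        by_contra hcon
        apply he
        have : e ∉ E := by
          intro heE
          rw [hE, Finset.mem_image] at heE
          obtain ⟨⟨i, j⟩, _, hij⟩ := heE
          exact hcon ⟨i, j, hij.symm⟩
        rw [Pi.add_apply, h1 e this]
        exact CharTwo.add_self_eq_zero _) (by
        intro i j
        have h3 : bf (X + Y) (v i) (w j) = bf X (v i) (w j) + bf Y (v i) (w j) := by
          unfold bf
          rw [← Finset.sum_add_distrib]
          apply Finset.sum_congr rfl
          intro e _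
          rw [Pi.add_apply]; ring
        rw [h3, hX i j, hY i j, add_zero])
      funext e
      have h4 := h2 e
      rw [Pi.add_apply] at h4
      exact CharTwo.add_eq_zero.mp h4
  have hcompl : Fintype.card {e : M × M // e ∉ E} + d ^ 2 = Fintype.card (M × M) := by
    rw [Fintype.card_subtype_compl (fun e => e ∈ E)]
    have h1 : Fintype.card {e : M × M // e ∈ E} = d ^ 2 := by
      rw [← hEc]; simp
    have h2 : d ^ 2 ≤ Fintype.card (M × M) := by
      rw [← hEc]; exact Finset.card_le_univ _
    rw [h1]; omega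
  calc _ ≤ Fintype.card ({e : M × M // e ∉ E} → ZMod 2) * 2 ^ (d ^ 2) :=
        Nat.mul_le_mul_right _ hinj
    _ = 2 ^ (Fintype.card {e : M × M // e ∉ E}) * 2 ^ (d ^ 2) := by
        rw [Fintype.card_fun, ZMod.card]
    _ = 2 ^ (Fintype.card (M × M)) := by rw [← pow_add, hcompl]
    _ = Fintype.card (M × M → ZMod 2) := by rw [Fintype.card_fun, ZMod.card]

omit [Fintype M] [DecidableEq M] in
open Classical in
/-- Union bound. -/
lemma exists_avoid {E X I : Type} [Fintype E] [DecidableEq E] [Fintype X] [Nonempty X]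
    (I0 : Finset I) (S : I → Finset E) (P : I → E → Finset X) (c m : ℕ)
    (hS : ∀ i ∈ I0, m ≤ (S i).card) (hP : ∀ i ∈ I0, ∀ e ∈ S i, (P i e).card * c ≤ Fintype.card X)
    (h : I0.card < c ^ m) :
    ∃ φ : E → X, ∀ i ∈ I0, ∃ e ∈ S i, φ e ∉ P i e := by
  by_contra hcon
  push Not at hcon
  have hXpos : 0 < Fintype.card X := Fintype.card_pos
  have hbad : ∀ i ∈ I0, (Finset.univ.filter (fun φ : E → X => ∀ e ∈ S i, φ e ∈ P i e)).card *
      c ^ m ≤ (Fintype.card X) ^ (Fintype.card E) := by
    intro i hi
    obtain ⟨S', hS', hc'⟩ := Finset.exists_subset_card_eq (hS i hi)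
    have hsub : Finset.univ.filter (fun φ : E → X => ∀ e ∈ S i, φ e ∈ P i e) ⊆
        Fintype.piFinset (fun e => if e ∈ S' then P i e else Finset.univ) := by
      intro φ hφ
      simp only [Finset.mem_filter, Finset.mem_univ, true_and] at hφ
      rw [Fintype.mem_piFinset]
      intro e
      split_ifs with he
      · exact hφ e (hS' he)
      · exact Finset.mem_univ _
    have h1 := Finset.card_le_card hsub
    rw [Fintype.card_piFinset] at h1
    have h2 : (∏ e, (if e ∈ S' then P i e else Finset.univ).card) * c ^ m ≤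
        (Fintype.card X) ^ (Fintype.card E) := by
      have e1 : c ^ m = ∏ e : E, if e ∈ S' then c else 1 := by
        rw [Finset.prod_ite, Finset.prod_const, Finset.prod_const_one, mul_one]
        congr 1
        rw [← hc']; congr 1; ext x; simp
      rw [e1, ← Finset.prod_mul_distrib, ← Finset.card_univ (α := E), ← Finset.prod_const]
      apply Finset.prod_le_prod'
      intro e _
      split_ifs with he
      · exact hP i hi e (hS' he)
      · rw [Finset.card_univ, mul_one]
    exact (Nat.mul_le_mul_right _ h1).trans h2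
  have hcov : (Finset.univ : Finset (E → X)) ⊆
      I0.biUnion (fun i => Finset.univ.filter (fun φ : E → X => ∀ e ∈ S i, φ e ∈ P i e)) := by
    intro φ _
    obtain ⟨i, hi, hi'⟩ := hcon φ
    rw [Finset.mem_biUnion]
    exact ⟨i, hi, by simpa using hi'⟩
  have h1 := (Finset.card_le_card hcov).trans Finset.card_biUnion_le
  rw [Finset.card_univ, Fintype.card_fun] at h1
  have h2 : (Fintype.card X) ^ (Fintype.card E) * c ^ m ≤
      I0.card * (Fintype.card X) ^ (Fintype.card E) := by
    calc _ ≤ (∑ i ∈ I0, (Finset.univ.filter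
          (fun φ : E → X => ∀ e ∈ S i, φ e ∈ P i e)).card) * c ^ m := Nat.mul_le_mul_right _ h1
      _ = ∑ i ∈ I0, (Finset.univ.filter
          (fun φ : E → X => ∀ e ∈ S i, φ e ∈ P i e)).card * c ^ m := Finset.sum_mul _ _ _
      _ ≤ ∑ _i ∈ I0, (Fintype.card X) ^ (Fintype.card E) := Finset.sum_le_sum hbad
      _ = _ := by rw [Finset.sum_const, smul_eq_mul]
  have h3 : 0 < (Fintype.card X) ^ (Fintype.card E) := by positivity
  rw [mul_comm] at h2
  have := Nat.le_of_mul_le_mul_right h2 h3
  omega

end Pool.Agent.H39.QT
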