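import Pool.Agent.H39.Twist
import Pool.Agent.H39.QT.Lin

/-!
# The twisted structure with dense tests (helper39, MP_6c3374)
-/

namespace Pool.Agent.H39.QT

open Pool.Agent.H39 Finset

variable {N : ℕ} {M P : Type} [Fintype M] [DecidableEq M]

/-- The coordinates of a leaf in a block. -/
def blk (x : (Fin N × M) ⊕ P → Bool) (a : Fin N) : M → ZMod 2 := fun m => bz (x (Sum.inl (a, m)))

/-- The bilinear form at gap `g`. -/
def cs3 (φ : Fin N × Fin N → M × M → ZMod 2) (g : Fin N) (x y : (Fin N × M) ⊕ P → Bool) : ZMod 2 :=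
  ∑ a : Fin N, ∑ b : Fin N, if a.val + b.val + 1 = 2 * g.val then
    bf (φ (g, a)) (blk x a) (blk y b) else 0

/-- The four-point identity. -/
lemma cs3_four (φ : Fin N × Fin N → M × M → ZMod 2) (g : Fin N)
    (x x' y y' : (Fin N × M) ⊕ P → Bool) :
    cs3 φ g x y + cs3 φ g x' y + cs3 φ g x y' + cs3 φ g x' y' =
    ∑ a : Fin N, ∑ b : Fin N, if a.val + b.val + 1 = 2 * g.val then
      bf (φ (g, a)) (blk x a + blk x' a) (blk y b + blk y' b) else 0 := by
  unfold cs3
  rw [← Finset.sum_add_distrib, ← Finset.sum_add_distrib, ← Finset.sum_add_distrib]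
  apply Finset.sum_congr rfl
  intro a _
  rw [← Finset.sum_add_distrib, ← Finset.sum_add_distrib, ← Finset.sum_add_distrib]
  apply Finset.sum_congr rfl
  intro b _
  split_ifs
  · rw [bf_add_left, bf_add_right, bf_add_right]
    ring
  · ring

/-- The twisted structure. -/
def tw3 (q : ℕ) (Q : Lvl M) (T K : ℕ) (σ : Fin N → ℕ) (hσ : Function.Injective σ)
    (hσN : ∀ g, σ g < N) (hT : ∀ a, Q.τ a < T) (hK : ∀ a, Q.θ a < K)
    (hqK : q ≤ K) (φ : Fin N × Fin N → M × M → ZMod 2) :
    Lvl ((Fin N × M) ⊕ (Fin N × Fin q)) where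
  τ := Sum.elim (fun x => N * q + (x.1.val * T + Q.τ x.2)) (fun x => σ x.1 * q + x.2.val)
  θ := Sum.elim (fun x => (2 * x.1.val + 1) * K + Q.θ x.2) (fun x => (2 * x.1.val) * K + x.2.val)
  τ_inj := by
    rintro (⟨a, c⟩ | ⟨a, c⟩) (⟨b, d⟩ | ⟨b, d⟩) hh
    · simp only [Sum.elim_inl] at hh
      obtain ⟨h1, h2⟩ := lex_inj (hT c) (hT d) (Nat.add_left_cancel hh)
      rw [Fin.ext h1, Q.τ_inj h2]
    · simp only [Sum.elim_inl, Sum.elim_inr] at hh
      have := lex_lt (a := σ b) (b := N) (K := q) (x := d.val) (y := 0) (hσN _) d.2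
      omega
    · simp only [Sum.elim_inl, Sum.elim_inr] at hh
      have := lex_lt (a := σ a) (b := N) (K := q) (x := c.val) (y := 0) (hσN _) c.2
      omega
    · simp only [Sum.elim_inr] at hh
      obtain ⟨h1, h2⟩ := lex_inj c.2 d.2 hh
      rw [hσ h1, Fin.ext h2]
  θ_inj := by
    rintro (⟨a, c⟩ | ⟨a, c⟩) (⟨b, d⟩ | ⟨b, d⟩) hh
    · simp only [Sum.elim_inl] at hh
      obtain ⟨h1, h2⟩ := lex_inj (hK c) (hK d) hh
      have h3 : a = b := Fin.ext (by omega)
      rw [h3, Q.θ_inj h2]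
    · simp only [Sum.elim_inl, Sum.elim_inr] at hh
      obtain ⟨h1, h2⟩ := lex_inj (hK c) (lt_of_lt_of_le d.2 hqK) hh
      omega
    · simp only [Sum.elim_inl, Sum.elim_inr] at hh
      obtain ⟨h1, h2⟩ := lex_inj (lt_of_lt_of_le c.2 hqK) (hK d) hh
      omega
    · simp only [Sum.elim_inr] at hh
      obtain ⟨h1, h2⟩ := lex_inj (lt_of_lt_of_le c.2 hqK) (lt_of_lt_of_le d.2 hqK) hh
      have h3 : a = b := Fin.ext (by omega)
      rw [h3, Fin.ext h2]
  col := fun ℓ x y => Sum.elim
    (fun p : Fin N × M => Q.col p.2 (fun m => x (Sum.inl (p.1, m)))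
      (fun m => y (Sum.inl (p.1, m))))
    (fun g : Fin N × Fin q => decide (cs3 φ g.1 x y = 1)) ℓ

/-- The conflict lemma. -/
lemma conflict3 {q : ℕ} {Q : Lvl M} {T K : ℕ} {σ : Fin N → ℕ} {hσ : Function.Injective σ}
    {hσN : ∀ g, σ g < N} {hT : ∀ a, Q.τ a < T}
    {hK : ∀ a, Q.θ a < K} {hqK : q ≤ K} {φ : Fin N × Fin N → M × M → ZMod 2}
    {up : Bool} {s : ℕ → ((Fin N × M) ⊕ (Fin N × Fin q)) → Bool}
    {u : ℕ → ((Fin N × M) ⊕ (Fin N × Fin q))} {n : ℕ} {c : Bool}
    (hc : Chain (tw3 q Q T K σ hσ hσN hT hK hqK φ) up s u n c)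
    {i k m : ℕ} (hik : i < k) (hkm : k < m) (hmn : m < n)
    {A B g : Fin N} {a b : M} {j : Fin q}
    (h1 : u i = Sum.inl (A, a)) (h2 : u k = Sum.inr (g, j)) (h3 : u m = Sum.inl (B, b))
    (hAB : A.val + B.val + 1 = 2 * g.val)
    (hmin : ∀ k' g' j', i < k' → k' < m → u k' = Sum.inr (g', j') → σ g ≤ σ g') :
    bf (φ (g, A)) (blk (s i) A + blk (s (i + 1)) A) (blk (s m) B + blk (s (m + 1)) B) = 0 := by
  set W := tw3 q Q T K σ hσ hσN hT hK hqK φ with hW
  have hτT : ∀ (g' : Fin N) (j' : Fin q),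
      W.τ (Sum.inr (g', j')) = σ g' * q + j'.val := fun _ _ => rfl
  have hτP : ∀ (p : Fin N) (x : M),
      W.τ (Sum.inl (p, x)) = N * q + (p.val * T + Q.τ x) := fun _ _ => rfl
  have four : ∀ α β, (α = i ∨ α = i + 1) → (β = m ∨ β = m + 1) →
      decide (cs3 φ g (s α) (s β) = 1) = c := by
    intro α β hα hβ
    obtain ⟨k', h4, h5, h6, h7⟩ := chain_Df W.τ_inj hc.step α β (by omega) (by omega)
    have h8 := h7 k (by omega) (by omega)
    rw [h2, hτT] at h8
    have hj := lex_lt (a := σ g) (b := N) (K := q) (x := j.val) (y := 0) (hσN _) j.2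
    rcases hk' : u k' with ⟨p, x⟩ | ⟨g', j'⟩
    · rw [hk', hτP] at h8
      omega
    · rw [hk', hτT] at h8
      have h9 : k' ≠ i := by
        rintro rfl; rw [h1] at hk'; exact absurd hk' (by simp)
      have h10 : k' ≠ m := by
        rintro rfl; rw [h3] at hk'; exact absurd hk' (by simp)
      have h11 := hmin k' g' j' (by omega) (by omega) hk'
      have h12 : σ g' ≤ σ g := by
        by_contra hcon
        push Not at hcon
        have := lex_lt (a := σ g) (b := σ g') (K := q) (x := j.val) (y := j'.val) hcon j.2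
        omega
      have h13 : g' = g := hσ (le_antisymm h12 h11)
      have h14 := hc.colr α β (u k') (by omega) (by omega) h6
      rw [hk', h13] at h14
      exact h14
  have e1 := four i m (Or.inl rfl) (Or.inl rfl)
  have e2 := four (i + 1) m (Or.inr rfl) (Or.inl rfl)
  have e3 := four i (m + 1) (Or.inl rfl) (Or.inr rfl)
  have e4 := four (i + 1) (m + 1) (Or.inr rfl) (Or.inr rfl)
  have f2 := zmod2_eq_of_decide (e2.trans e1.symm)
  have f3 := zmod2_eq_of_decide (e3.trans e1.symm)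
  have f4 := zmod2_eq_of_decide (e4.trans e1.symm)
  have hid := cs3_four φ g (s i) (s (i + 1)) (s m) (s (m + 1))
  rw [f2, f3, f4] at hid
  have hz : ∀ z : ZMod 2, z + z + z + z = 0 := by decide
  rw [hz] at hid
  have s1 := hc.step i (by omega)
  have s2 := hc.step m (by omega)
  rw [h1] at s1
  rw [h3] at s2
  rw [Finset.sum_eq_single A, Finset.sum_eq_single B, if_pos hAB] at hid
  · exact hid.symm
  · intro b' _ hb'
    rw [if_neg]
    intro hcon
    exact hb' (Fin.ext (by omega))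
  · intro hcon; exact absurd (Finset.mem_univ _) hcon
  · intro a' _ ha'
    apply Finset.sum_eq_zero
    intro b' _
    split_ifs with hab'
    swap
    · rfl
    rcases lt_trichotomy a'.val A.val with h4 | h4 | h4
    · have h5 : blk (s i) a' + blk (s (i + 1)) a' = 0 := by
        funext x
        have h6 : s i (Sum.inl (a', x)) = s (i + 1) (Sum.inl (a', x)) := by
          apply s1.2.2
          rw [hτP, hτP]
          have := lex_lt (y := Q.τ a) h4 (hT x)
          omega
        simp only [blk, Pi.add_apply, Pi.zero_apply]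
        rw [h6, bz_add_self]
      rw [h5, bf_zero_left]
    · exact absurd (Fin.ext h4) ha'
    · have h4' : b'.val < B.val := by omega
      have h5 : blk (s m) b' + blk (s (m + 1)) b' = 0 := by
        funext x
        have h6 : s m (Sum.inl (b', x)) = s (m + 1) (Sum.inl (b', x)) := by
          apply s2.2.2
          rw [hτP, hτP]
          have := lex_lt (y := Q.τ b) h4' (hT x)
          omega
        simp only [blk, Pi.add_apply, Pi.zero_apply]
        rw [h6, bz_add_self]
      rw [h5, bf_zero_right]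
  · intro hcon; exact absurd (Finset.mem_univ _) hcon

end Pool.Agent.H39.QT
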