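import Pool.Agent.H39.TwistMain
import Pool.Agent.H39.QT.Tw3

/-!
# The twisting lemma, given enough hits (helper39, MP_6c3374)
-/

namespace Pool.Agent.H39.QT

open Pool.Agent.H39 Finset

section

variable {N : ℕ}

/-- The partner block of a test. -/
def pr (e : Fin N × Fin N) : Fin N :=
  ⟨(2 * e.1.val - 1 - e.2.val) % N, Nat.mod_lt _ (lt_of_le_of_lt (Nat.zero_le _) e.1.2)⟩

/-- The window condition. -/
def Win3 (σ : Fin N → ℕ) (G : Finset (Fin N)) (g : Fin N) (x y : ℕ) : Prop :=
  ∀ g' ∈ G, x < g'.val → g'.val ≤ y → σ g ≤ σ g'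

/-- The tests of a configuration. -/
def TP3 (σ : Fin N → ℕ) (up : Bool) (G Z : Finset (Fin N)) (e : Fin N × Fin N) : Prop :=
  e.1 ∈ G ∧ e.2.val + (pr e).val + 1 = 2 * e.1.val ∧
    (if up then e.2.val < e.1.val ∧ Win3 σ G e.1 e.2.val (pr e).val
      else e.1.val ≤ e.2.val ∧ Win3 σ G e.1 (pr e).val e.2.val) ∧
    e.2 ∉ Z ∧ pr e ∉ Z

end

/-- Every configuration with many gaps has a test that fails. -/
def Hits {N : ℕ} {M : Type} [Fintype M] (D d : ℕ) (σ : Fin N → ℕ) (τ : M → ℕ)
    (φ : Fin N × Fin N → M × M → ZMod 2) : Prop :=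
  ∀ (up : Bool) (G Z : Finset (Fin N)) (V : Fin N → Fin d → M → ZMod 2),
    N < D * G.card → 40 * Z.card ≤ G.card → (∀ p, p ∉ Z → ∃ a, Lead τ (V p) a) →
    ∃ e, TP3 σ up G Z e ∧ ∃ i j, bf (φ e) (V e.2 i) (V (pr e) j) ≠ 0

open Classical in
/-- The twisting lemma. -/
lemma bdd_of_hits {N : ℕ} {M : Type} [Fintype M] [DecidableEq M] (Q : Lvl M) (f : ℕ)
    (hQ : Bdd Q f) (D q d : ℕ) (hD : 1 ≤ D) (hq : 1 ≤ q) (hqf : 80 * q ≤ f) (hd : 2 * d ≤ f)
    {T K : ℕ} {σ : Fin N → ℕ} {hσ : Function.Injective σ}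
    {hσN : ∀ g, σ g < N} {hT : ∀ a, Q.τ a < T}
    {hK : ∀ a, Q.θ a < K} {hqK : q ≤ K} {φ : Fin N × Fin N → M × M → ZMod 2}
    (hφ : Hits D d σ Q.τ φ) :
    Bdd (tw3 q Q T K σ hσ hσN hT hK hqK φ) (N * f + N * q / D) := by
  intro up s u n c hc
  by_contra hn
  push Not at hn
  set W := tw3 q Q T K σ hσ hσN hT hK hqK φ with hW
  have hθT : ∀ (g' : Fin N) (j' : Fin q),
      W.θ (Sum.inr (g', j')) = (2 * g'.val) * K + j'.val := fun _ _ => rfl
  have hθP : ∀ (p : Fin N) (x : M),
      W.θ (Sum.inl (p, x)) = (2 * p.val + 1) * K + Q.θ x := fun _ _ => rfl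
  have hτP : ∀ (p : Fin N) (x : M),
      W.τ (Sum.inl (p, x)) = N * q + (p.val * T + Q.τ x) := fun _ _ => rfl
  let nb : Fin N → Finset ℕ := fun p => (Finset.range n).filter (fun i => ∃ a, u i = Sum.inl (p, a))
  let G : Finset (Fin N) :=
    Finset.univ.filter (fun g => ∃ i < n, ∃ j, u i = Sum.inr (g, j))
  let Z : Finset (Fin N) := Finset.univ.filter (fun p : Fin N => (nb p).card < d)
  -- block counts
  have hblock : ∀ p : Fin N, (nb p).card ≤ f := by
    intro p
    apply block W Q f hQ (fun m => Sum.inl (p, m)) _ _ _ _ hc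
    · intro i hi
      simp only [nb, Finset.mem_filter, Finset.mem_range] at hi
      exact ⟨hi.1, hi.2.imp fun a ha => ha.symm⟩
    · intro a b hab
      rw [hτP, hτP]
      omega
    · intro a b hab
      rw [hθP, hθP] at hab
      omega
    · intro a b ℓ hl1 hl2
      rcases ℓ with ⟨p', x⟩ | ⟨g', j'⟩
      · rw [hθP, hθP] at hl1 hl2
        have h5 : ¬ (2 * p'.val + 1 < 2 * p.val + 1) := fun h6 => by
          have := lex_lt (K := K) (y := Q.θ a) h6 (hK x); omega
        have h7 : ¬ (2 * p.val + 1 < 2 * p'.val + 1) := fun h6 => by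
          have := lex_lt (K := K) (y := Q.θ x) h6 (hK b); omega
        have h8 : p = p' := Fin.ext (by omega)
        exact ⟨x, by rw [h8]⟩
      · exfalso
        rw [hθP, hθT] at hl1
        rw [hθT, hθP] at hl2
        have h5 : ¬ (2 * g'.val < 2 * p.val + 1) := fun h6 => by
          have := lex_lt (K := K) (y := Q.θ a) h6 (lt_of_lt_of_le j'.2 hqK); omega
        have h7 : ¬ (2 * p.val + 1 < 2 * g'.val) := fun h6 => by
          have := lex_lt (K := K) (y := j'.val) h6 (hK b); omega
        omega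
    · intro m x y
      rfl
  have hgap : ∀ g : Fin N,
      ((Finset.range n).filter (fun i => ∃ j, u i = Sum.inr (g, j))).card ≤ q := by
    intro g
    have hq0 : 0 < q := hq
    let pj : ((Fin N × M) ⊕ (Fin N × Fin q)) → Fin q :=
      Sum.elim (fun _ => ⟨0, hq0⟩) (fun x => x.2)
    have hle : ((Finset.range n).filter (fun i => ∃ j, u i = Sum.inr (g, j))).card ≤
        (Finset.univ : Finset (Fin q)).card := by
      apply Finset.card_le_card_of_injOn (fun i => pj (u i))
      · intro i _; exact Finset.mem_univ _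
      intro i hi i' hi' hee
      simp only [Finset.coe_filter, Finset.mem_range, Set.mem_ofPred_eq] at hi hi'
      obtain ⟨hi1, j, hj⟩ := hi
      obtain ⟨hi1', j', hj'⟩ := hi'
      apply chain_u_inj hc hi1 hi1'
      have h5 : pj (u i) = pj (u i') := hee
      rw [hj, hj'] at h5
      have h6 : j = j' := h5
      rw [hj, hj', h6]
    rwa [Finset.card_univ, Fintype.card_fin] at hle
  have hcover : Finset.range n ⊆
      (Finset.univ.biUnion nb) ∪
      (G.biUnion (fun g => (Finset.range n).filter (fun i => ∃ j, u i = Sum.inr (g, j)))) := by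
    intro i hi
    rw [Finset.mem_range] at hi
    rw [Finset.mem_union, Finset.mem_biUnion, Finset.mem_biUnion]
    rcases hu : u i with ⟨p, x⟩ | ⟨g, j⟩
    · left
      refine ⟨p, Finset.mem_univ _, ?_⟩
      simp only [nb, Finset.mem_filter, Finset.mem_range]
      exact ⟨hi, x, hu⟩
    · right
      refine ⟨g, ?_, ?_⟩
      · simp only [G, Finset.mem_filter, Finset.mem_univ, true_and]
        exact ⟨i, hi, j, hu⟩
      · simp only [Finset.mem_filter, Finset.mem_range]
        exact ⟨hi, j, hu⟩
  have hn1 : n ≤ (∑ p, (nb p).card) + G.card * q := by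
    have h5 := Finset.card_le_card hcover
    rw [Finset.card_range] at h5
    have h6 := Finset.card_union_le (Finset.univ.biUnion nb)
      (G.biUnion (fun g => (Finset.range n).filter (fun i => ∃ j, u i = Sum.inr (g, j))))
    have h7 : (Finset.univ.biUnion nb).card ≤ ∑ p, (nb p).card := Finset.card_biUnion_le
    have h8 := Finset.card_biUnion_le_card_mul G (fun g => (Finset.range n).filter
        (fun i => ∃ j, u i = Sum.inr (g, j))) q (fun g _ => hgap g)
    omega
  have hsum : (∑ p, (nb p).card) + Z.card * (f - d) ≤ N * f := by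
    have e1 : Z.card * (f - d) = ∑ p : Fin N, if (nb p).card < d then (f - d) else 0 := by
      rw [← Finset.sum_filter, Finset.sum_const, smul_eq_mul]
    have e2 : N * f = ∑ _p : Fin N, f := by
      rw [Finset.sum_const, Finset.card_univ, Fintype.card_fin, smul_eq_mul]
    rw [e1, e2, ← Finset.sum_add_distrib]
    apply Finset.sum_le_sum
    intro p _
    have := hblock p
    split_ifs with h5 <;> omega
  have hdiv : N * q < (N * q / D + 1) * D := by
    have := Nat.lt_div_mul_add (a := N * q) (b := D) (by omega)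
    linarith
  have hG1 : N < D * G.card := by
    have h6 : N * q / D + 1 ≤ G.card * q := by omega
    have h7 : (N * q / D + 1) * D ≤ G.card * q * D := Nat.mul_le_mul_right _ h6
    have h8 : N * q < (D * G.card) * q := by
      calc N * q < (N * q / D + 1) * D := hdiv
        _ ≤ G.card * q * D := h7
        _ = (D * G.card) * q := by ring
    exact Nat.lt_of_mul_lt_mul_right h8
  have hZ1 : 40 * Z.card ≤ G.card := by
    have h5 : Z.card * (f - d) ≤ G.card * q := by
      have h0 : 0 ≤ N * q / D := Nat.zero_le _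
      omega
    have h6 : Z.card * (40 * q) ≤ Z.card * (f - d) := Nat.mul_le_mul_left _ (by omega)
    have h7 : (40 * Z.card) * q ≤ G.card * q := by
      calc (40 * Z.card) * q = Z.card * (40 * q) := by ring
        _ ≤ G.card * q := h6.trans h5
    exact Nat.le_of_mul_le_mul_right h7 hq
  -- the difference vectors
  have hnbd : ∀ p, p ∉ Z → d ≤ (nb p).card := by
    intro p hp
    simp only [Z, Finset.mem_filter, Finset.mem_univ, true_and, not_lt] at hp
    exact hp
  let ix : Fin N → Fin d → ℕ := fun p i =>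
    if hp : p ∉ Z then (nb p).orderEmbOfCardLe (hnbd p hp) i else 0
  have hix : ∀ p, p ∉ Z → ∀ i, ix p i ∈ nb p := by
    intro p hp i
    simp only [ix, dif_pos hp]
    exact Finset.orderEmbOfCardLe_mem _ _ _
  have hixinj : ∀ p, p ∉ Z → Function.Injective (ix p) := by
    intro p hp i j hij
    simp only [ix, dif_pos hp] at hij
    exact ((nb p).orderEmbOfCardLe (hnbd p hp)).injective hij
  let V : Fin N → Fin d → M → ZMod 2 := fun p i =>
    blk (s (ix p i)) p + blk (s (ix p i + 1)) p
  have hVlead : ∀ p, p ∉ Z → ∃ a, Lead Q.τ (V p) a := by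
    intro p hp
    have h1 : ∀ i, ∃ a, u (ix p i) = Sum.inl (p, a) := by
      intro i
      have := hix p hp i
      simp only [nb, Finset.mem_filter] at this
      exact this.2
    have h2 : ∀ i, ix p i < n := by
      intro i
      have := hix p hp i
      simp only [nb, Finset.mem_filter, Finset.mem_range] at this
      exact this.1
    choose a ha using h1
    refine ⟨a, ?_, ?_, ?_⟩
    · intro i j hij
      apply hixinj p hp
      apply chain_u_inj hc (h2 i) (h2 j)
      rw [ha, ha, hij]
    · intro i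
      have h3 := hc.step (ix p i) (h2 i)
      rw [ha] at h3
      simp only [V, blk, Pi.add_apply]
      rw [h3.1, h3.2.1]
      decide
    · intro i m hm
      have h3 := hc.step (ix p i) (h2 i)
      rw [ha] at h3
      have h4 : s (ix p i) (Sum.inl (p, m)) = s (ix p i + 1) (Sum.inl (p, m)) := by
        apply h3.2.2
        rw [hτP, hτP]
        omega
      simp only [V, blk, Pi.add_apply]
      rw [h4, bz_add_self]
  obtain ⟨⟨g, A⟩, ⟨hgG, hAB, hdirn, hAZ, hBZ⟩, i0, j0, hne⟩ := hφ up G Z V hG1 hZ1 hVlead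
  obtain ⟨B, hB⟩ : ∃ B, B = pr (g, A) := ⟨_, rfl⟩
  rw [← hB] at hAB hdirn hBZ hne
  have hAB' : A.val + B.val + 1 = 2 * g.val := hAB
  have hA' := hix A hAZ i0
  have hB' := hix B hBZ j0
  simp only [nb, Finset.mem_filter, Finset.mem_range] at hA' hB'
  obtain ⟨hin, a, hi⟩ := hA'
  obtain ⟨hmn, b, hm⟩ := hB'
  have hgG' : g ∈ G := hgG
  simp only [G, Finset.mem_filter, Finset.mem_univ, true_and] at hgG'
  obtain ⟨k, hkn, j, hk⟩ := hgG'
  apply hne
  -- slopes comparison
  have cmp1 : ∀ (p : Fin N) (x : M) (g' : Fin N) (j' : Fin q), p.val < g'.val →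
      W.θ (Sum.inl (p, x)) < W.θ (Sum.inr (g', j')) := by
    intro p x g' j' hpg
    rw [hθP, hθT]
    exact lex_lt (by omega) (hK x)
  have cmp2 : ∀ (p : Fin N) (x : M) (g' : Fin N) (j' : Fin q), g'.val ≤ p.val →
      W.θ (Sum.inr (g', j')) < W.θ (Sum.inl (p, x)) := by
    intro p x g' j' hpg
    rw [hθP, hθT]
    exact lex_lt (by omega) (lt_of_lt_of_le j'.2 hqK)
  cases up with
  | true =>
    have hd' : A.val < g.val ∧ Win3 σ G g A.val B.val := by simpa using hdirn
    have hik : ix A i0 < k := chain_order hc hin hkn (by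
      rw [hi, hk]; exact cmp1 _ _ _ _ hd'.1)
    have hkm : k < ix B j0 := chain_order hc hkn hmn (by
      rw [hk, hm]; exact cmp2 _ _ _ _ (by omega))
    apply conflict3 hc hik hkm hmn hi hk hm hAB'
    intro k' g' j' h5 h6 h7
    apply hd'.2 g'
    · simp only [G, Finset.mem_filter, Finset.mem_univ, true_and]
      exact ⟨k', by omega, j', h7⟩
    · by_contra hcon
      have h8 := cmp2 A a g' j' (by omega)
      have h9 := hc.mono (ix A i0) k' h5 (by omega)
      rw [hi, h7] at h9
      have h10 : W.θ (Sum.inl (A, a)) < W.θ (Sum.inr (g', j')) := h9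
      omega
    · by_contra hcon
      have h8 := cmp1 B b g' j' (by omega)
      have h9 := hc.mono k' (ix B j0) h6 hmn
      rw [hm, h7] at h9
      have h10 : W.θ (Sum.inr (g', j')) < W.θ (Sum.inl (B, b)) := h9
      omega
  | false =>
    have hd' : g.val ≤ A.val ∧ Win3 σ G g B.val A.val := by simpa using hdirn
    have hik : ix A i0 < k := chain_order hc hin hkn (by
      rw [hi, hk]; exact cmp2 _ _ _ _ hd'.1)
    have hkm : k < ix B j0 := chain_order hc hkn hmn (by
      rw [hk, hm]; exact cmp1 _ _ _ _ (by omega))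
    apply conflict3 hc hik hkm hmn hi hk hm hAB'
    intro k' g' j' h5 h6 h7
    apply hd'.2 g'
    · simp only [G, Finset.mem_filter, Finset.mem_univ, true_and]
      exact ⟨k', by omega, j', h7⟩
    · by_contra hcon
      have h8 := cmp2 B b g' j' (by omega)
      have h9 := hc.mono k' (ix B j0) h6 hmn
      rw [hm, h7] at h9
      have h10 : W.θ (Sum.inl (B, b)) < W.θ (Sum.inr (g', j')) := h9
      omega
    · by_contra hcon
      have h8 := cmp1 A a g' j' (by omega)
      have h9 := hc.mono (ix A i0) k' h5 (by omega)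
      rw [hi, h7] at h9
      have h10 : W.θ (Sum.inr (g', j')) < W.θ (Sum.inl (A, a)) := h9
      omega

end Pool.Agent.H39.QT
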