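import Pool.Agent.H39.QT.Sig
import Pool.Agent.H39.QT.Main3

/-!
# Existence of good test matrices, first version (helper39, MP_6c3374)
-/

namespace Pool.Agent.H39.QT

open Pool.Agent.H39 Finset

/-- The times of the gaps. -/
def sgF (t : ℕ) (g : Fin (3 ^ t)) : ℕ := sg t g.val

lemma sgF_inj (t : ℕ) : Function.Injective (sgF t) := fun g g' h => Fin.ext (sg_inj g.2 g'.2 h)

lemma sgF_lt (t : ℕ) (g : Fin (3 ^ t)) : sgF t g < 3 ^ t := sg_lt t g.val g.2

lemma pr_val {N : ℕ} {g A B : Fin N} (h : A.val + B.val + 1 = 2 * g.val) : pr (g, A) = B := by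
  apply Fin.ext
  show (2 * g.val - 1 - A.val) % N = B.val
  rw [show 2 * g.val - 1 - A.val = B.val by omega]
  exact Nat.mod_eq_of_lt B.2

open Classical in
/-- The good pairs give tests. -/
lemma tp3_card (t : ℕ) (up : Bool) (G Z : Finset (Fin (3 ^ t))) {l r : ℕ} (hr : r ≤ 3 ^ t)
    (S : Finset (ℕ × ℕ))
    (hS : S ⊆ gp (sg t) (G.map Fin.valEmbedding) (Z.map Fin.valEmbedding) l r) :
    S.card ≤ (Finset.univ.filter (fun e => TP3 (sgF t) up G Z e)).card := by
  have hpos : 0 < 3 ^ t := by positivity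
  let toF : ℕ → Fin (3 ^ t) := fun x => ⟨x % 3 ^ t, Nat.mod_lt _ hpos⟩
  have htoF : ∀ x, x < 3 ^ t → (toF x).val = x := fun x hx => Nat.mod_eq_of_lt hx
  have hx0 : ∀ x ∈ S, x.1 < 3 ^ t ∧ 1 ≤ x.2 ∧ x.2 ≤ x.1 ∧ x.1 + x.2 ≤ 3 ^ t := by
    intro x hx
    have h := hS hx
    simp only [gp, Finset.mem_filter, Finset.mem_product, Finset.mem_map] at h
    obtain ⟨⟨⟨g0, _, hg0⟩, _⟩, h2, h3, h4, _⟩ := h
    have h1 : x.1 < 3 ^ t := by rw [← hg0]; exact g0.2
    exact ⟨h1, h2, by omega, by omega⟩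
  apply Finset.card_le_card_of_injOn
    (fun x => (toF x.1, toF (if up then x.1 - x.2 else x.1 + x.2 - 1)))
  · rintro ⟨g, d⟩ hx
    have hb := hx0 _ hx
    have hx' := hS hx
    simp only [gp, Finset.mem_filter, Finset.mem_product, Finset.mem_map,
      Finset.mem_range, Fin.valEmbedding_apply] at hx'
    obtain ⟨⟨⟨g0, hg0, hg0'⟩, h1⟩, h2, h3, h4, h5, h6, h7⟩ := hx'
    simp only at hb h2 h3 h4 h5 h6 h7 hg0'
    subst hg0'
    have hgv : toF g0.val = g0 := Fin.ext (htoF _ g0.2)
    have hlo : (toF (g0.val - d)).val = g0.val - d := htoF _ (by omega)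
    have hhi : (toF (g0.val + d - 1)).val = g0.val + d - 1 := htoF _ (by omega)
    have hw : Win3 (sgF t) G g0 (g0.val - d) (g0.val + d - 1) := by
      intro g' hg' h8 h9
      exact h5 g'.val ⟨g', hg', rfl⟩ (by omega) (by omega)
    have ha : toF (g0.val - d) ∉ Z := fun hcon => h6 ⟨_, hcon, hlo⟩
    have hb' : toF (g0.val + d - 1) ∉ Z := fun hcon => h7 ⟨_, hcon, hhi⟩
    simp only [Finset.coe_filter, Finset.mem_univ, true_and, Set.mem_ofPred_eq]
    cases up with
    | true =>
      have hp : pr (g0, toF (g0.val - d)) = toF (g0.val + d - 1) :=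
        pr_val (by rw [hlo, hhi]; omega)
      refine ⟨?_, ?_, ?_, ?_, ?_⟩
      · show toF g0.val ∈ G
        rw [hgv]; exact hg0
      · simp only [if_true]
        rw [hgv, hp, hlo, hhi]
        omega
      · simp only [if_true]
        rw [hgv, hp, hlo, hhi]
        exact ⟨by omega, hw⟩
      · exact ha
      · simp only [if_true]
        rw [hgv, hp]
        exact hb'
    | false =>
      have hp : pr (g0, toF (g0.val + d - 1)) = toF (g0.val - d) :=
        pr_val (by rw [hlo, hhi]; omega)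
      refine ⟨?_, ?_, ?_, ?_, ?_⟩
      · show toF g0.val ∈ G
        rw [hgv]; exact hg0
      · simp only [Bool.false_eq_true, if_false]
        rw [hgv, hp, hlo, hhi]
        omega
      · simp only [Bool.false_eq_true, if_false]
        rw [hgv, hp, hlo, hhi]
        exact ⟨by omega, hw⟩
      · exact hb'
      · simp only [Bool.false_eq_true, if_false]
        rw [hgv, hp]
        exact ha
  · rintro ⟨g, d⟩ hx ⟨g', d'⟩ hx' hee
    have hb := hx0 _ hx
    have hb' := hx0 _ hx'
    simp only at hb hb'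
    simp only [Prod.mk.injEq] at hee
    obtain ⟨e1, e2⟩ := hee
    have f1 := congrArg Fin.val e1
    have f2 := congrArg Fin.val e2
    rw [htoF _ (by omega), htoF _ (by omega)] at f1
    rw [htoF _ (by split_ifs <;> omega), htoF _ (by split_ifs <;> omega)] at f2
    rw [Prod.mk.injEq]
    split_ifs at f2 <;> omega

open Classical in
/-- The constraint sets are small. -/
lemma card_constraint {d : ℕ} {M : Type} [Fintype M] [DecidableEq M] {τ : M → ℕ}
    (hτ : Function.Injective τ) {v w : Fin d → M → ZMod 2} (hv : ∃ a, Lead τ v a)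
    (hw : ∃ a, Lead τ w a) :
    (Finset.univ.filter (fun X : M × M → ZMod 2 => ∀ i j, bf X (v i) (w j) = 0)).card
      * 2 ^ (d ^ 2) ≤ Fintype.card (M × M → ZMod 2) := by
  obtain ⟨a, ha⟩ := hv
  obtain ⟨b, hb⟩ := hw
  exact card_orth hτ ha hb

open Classical in
/-- Existence of the matrices, first version. -/
lemma exists_hits_A {M : Type} [Fintype M] [DecidableEq M] {τ : M → ℕ}
    (hτ : Function.Injective τ) {D d J t : ℕ} (hD : 1 ≤ D) (hd : 1 ≤ d)
    (hJ : Fintype.card M + 3 ≤ d * J) (ht : t = 10 * D * (J + 1)) :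
    ∃ φ, Hits D d (sgF t) τ φ := by
  set R := Fintype.card M with hR
  set N := 3 ^ t with hN
  have ht1 : 1 ≤ t := by rw [ht]; nlinarith
  have hN2 : 3 ≤ N := by
    calc 3 = 3 ^ 1 := by norm_num
      _ ≤ 3 ^ t := Nat.pow_le_pow_right (by norm_num) ht1
  let I0 : Finset (Bool × Finset (Fin N) × Finset (Fin N) × (Fin N → Fin d → M → ZMod 2)) :=
    Finset.univ.filter (fun i => N < D * i.2.1.card ∧ 40 * i.2.2.1.card ≤ i.2.1.card ∧
      ∀ p, p ∉ i.2.2.1 → ∃ a, Lead τ (i.2.2.2 p) a)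
  let S : Bool × Finset (Fin N) × Finset (Fin N) × (Fin N → Fin d → M → ZMod 2) →
      Finset (Fin N × Fin N) :=
    fun i => Finset.univ.filter (fun e => TP3 (sgF t) i.1 i.2.1 i.2.2.1 e)
  let P : Bool × Finset (Fin N) × Finset (Fin N) × (Fin N → Fin d → M → ZMod 2) →
      Fin N × Fin N → Finset (M × M → ZMod 2) :=
    fun i e => Finset.univ.filter (fun X => ∀ a b, bf X (i.2.2.2 e.2 a) (i.2.2.2 (pr e) b) = 0)
  have hcardS : ∀ i ∈ I0, J * N ≤ (S i).card := by
    intro i hi
    simp only [I0, Finset.mem_filter, Finset.mem_univ, true_and] at hi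
    refine le_trans ?_ (tp3_card t i.1 i.2.1 i.2.2.1 (l := 0) (r := 3 ^ t) le_rfl
      (gp (sg t) (i.2.1.map Fin.valEmbedding) (i.2.2.1.map Fin.valEmbedding) 0 (3 ^ t))
      (Finset.Subset.refl _))
    apply many_good3 D J t hD ht
    · intro g hg
      rw [Finset.mem_map] at hg
      obtain ⟨g0, _, rfl⟩ := hg
      exact g0.2
    · rw [Finset.card_map]; exact hi.1
    · rw [Finset.card_map, Finset.card_map]
      have := hi.2.1
      omega
  have hcardP : ∀ i ∈ I0, ∀ e ∈ S i, (P i e).card * 2 ^ (d ^ 2) ≤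
      Fintype.card (M × M → ZMod 2) := by
    intro i hi e he
    simp only [I0, Finset.mem_filter, Finset.mem_univ, true_and] at hi
    have he' : TP3 (sgF t) i.1 i.2.1 i.2.2.1 e := by simpa [S] using he
    exact card_constraint hτ (hi.2.2 _ he'.2.2.2.1) (hi.2.2 _ he'.2.2.2.2)
  have hcount : I0.card < (2 ^ (d ^ 2)) ^ (J * N) := by
    have h1 : I0.card ≤ 2 * (2 ^ N * (2 ^ N * ((2 ^ R) ^ d) ^ N)) := by
      refine (Finset.card_le_univ _).trans (le_of_eq ?_)
      rw [Fintype.card_prod, Fintype.card_prod, Fintype.card_prod, Fintype.card_bool,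
        Fintype.card_finset, Fintype.card_fun, Fintype.card_fun, Fintype.card_fun, ZMod.card,
        Fintype.card_fin, Fintype.card_fin]
    refine lt_of_le_of_lt h1 ?_
    rw [← pow_mul, ← pow_mul, ← pow_mul, ← pow_add, ← pow_add, ← pow_succ']
    apply Nat.pow_lt_pow_right (by norm_num)
    have h2 : d * (R + 3) ≤ d * (d * J) := Nat.mul_le_mul_left _ hJ
    have h3 : N * (d * (R + 3)) ≤ N * (d * (d * J)) := Nat.mul_le_mul_left _ h2
    have h4 : d ^ 2 * (J * N) = N * (d * (d * J)) := by ring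
    have h5 : N * (d * (R + 3)) = R * (d * N) + 3 * (d * N) := by ring
    have h6 : N ≤ d * N := Nat.le_mul_of_pos_left N hd
    rw [h4]
    omega
  obtain ⟨φ, hφ⟩ := exists_avoid I0 S P (2 ^ (d ^ 2)) (J * N) hcardS hcardP hcount
  refine ⟨φ, ?_⟩
  intro up G Z V h1 h2 h3
  obtain ⟨e, he, heP⟩ := hφ (up, G, Z, V) (by
    simp only [I0, Finset.mem_filter, Finset.mem_univ, true_and]
    exact ⟨h1, h2, h3⟩)
  have he' : TP3 (sgF t) up G Z e := by simpa [S] using he
  refine ⟨e, he', ?_⟩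
  simp only [P, Finset.mem_filter, Finset.mem_univ, true_and] at heP
  push Not at heP
  exact heP

end Pool.Agent.H39.QT
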