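import Pool.Agent.H39.QT.SigB
import Pool.Agent.H39.QT.PhiA

/-!
# Existence of good test matrices, second version (helper39, MP_6c3374)
-/

namespace Pool.Agent.H39.QT

open Pool.Agent.H39 Finset

open Classical in
/-- Union bound with classes of configurations. -/
lemma exists_avoid2 {E X I W : Type} [Fintype E] [DecidableEq E] [Fintype X] [Nonempty X]
    (ws : Finset W) (I0 : W → Finset I) (S : W → I → Finset E) (P : W → I → E → Finset X)
    (c M0 : ℕ) (m : W → ℕ) (hm : ∀ ν ∈ ws, m ν ≤ M0)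
    (hS : ∀ ν ∈ ws, ∀ i ∈ I0 ν, m ν ≤ (S ν i).card)
    (hP : ∀ ν ∈ ws, ∀ i ∈ I0 ν, ∀ e ∈ S ν i, (P ν i e).card * c ≤ Fintype.card X)
    (h : ∑ ν ∈ ws, (I0 ν).card * c ^ (M0 - m ν) < c ^ M0) :
    ∃ φ : E → X, ∀ ν ∈ ws, ∀ i ∈ I0 ν, ∃ e ∈ S ν i, φ e ∉ P ν i e := by
  by_contra hcon
  push Not at hcon
  have hXpos : 0 < Fintype.card X := Fintype.card_pos
  have hbad : ∀ ν ∈ ws, ∀ i ∈ I0 ν,
      (Finset.univ.filter (fun φ : E → X => ∀ e ∈ S ν i, φ e ∈ P ν i e)).card *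
      c ^ (m ν) ≤ (Fintype.card X) ^ (Fintype.card E) := by
    intro ν hν i hi
    obtain ⟨S', hS', hc'⟩ := Finset.exists_subset_card_eq (hS ν hν i hi)
    have hsub : Finset.univ.filter (fun φ : E → X => ∀ e ∈ S ν i, φ e ∈ P ν i e) ⊆
        Fintype.piFinset (fun e => if e ∈ S' then P ν i e else Finset.univ) := by
      intro φ hφ
      simp only [Finset.mem_filter, Finset.mem_univ, true_and] at hφ
      rw [Fintype.mem_piFinset]
      intro e
      split_ifs with he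
      · exact hφ e (hS' he)
      · exact Finset.mem_univ _
    have h1 := Finset.card_le_card hsub
    rw [Fintype.card_piFinset] at h1
    have h2 : (∏ e, (if e ∈ S' then P ν i e else Finset.univ).card) * c ^ (m ν) ≤
        (Fintype.card X) ^ (Fintype.card E) := by
      have e1 : c ^ (m ν) = ∏ e : E, if e ∈ S' then c else 1 := by
        rw [Finset.prod_ite, Finset.prod_const, Finset.prod_const_one, mul_one]
        congr 1
        rw [← hc']; congr 1; ext x; simp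
      rw [e1, ← Finset.prod_mul_distrib, ← Finset.card_univ (α := E), ← Finset.prod_const]
      apply Finset.prod_le_prod'
      intro e _
      split_ifs with he
      · exact hP ν hν i hi e (hS' he)
      · rw [Finset.card_univ, mul_one]
    exact (Nat.mul_le_mul_right _ h1).trans h2
  have hcov : (Finset.univ : Finset (E → X)) ⊆
      ws.biUnion (fun ν => (I0 ν).biUnion (fun i =>
        Finset.univ.filter (fun φ : E → X => ∀ e ∈ S ν i, φ e ∈ P ν i e))) := by
    intro φ _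
    obtain ⟨ν, hν, i, hi, hi'⟩ := hcon φ
    rw [Finset.mem_biUnion]
    refine ⟨ν, hν, ?_⟩
    rw [Finset.mem_biUnion]
    exact ⟨i, hi, by simpa using hi'⟩
  have h1 : (Fintype.card X) ^ (Fintype.card E) ≤ ∑ ν ∈ ws, ∑ i ∈ I0 ν,
      (Finset.univ.filter (fun φ : E → X => ∀ e ∈ S ν i, φ e ∈ P ν i e)).card := by
    have h2 := (Finset.card_le_card hcov).trans Finset.card_biUnion_le
    rw [Finset.card_univ, Fintype.card_fun] at h2
    exact h2.trans (Finset.sum_le_sum fun ν _ => Finset.card_biUnion_le)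
  have h2 : (Fintype.card X) ^ (Fintype.card E) * c ^ M0 ≤
      (∑ ν ∈ ws, (I0 ν).card * c ^ (M0 - m ν)) * (Fintype.card X) ^ (Fintype.card E) := by
    calc _ ≤ (∑ ν ∈ ws, ∑ i ∈ I0 ν, (Finset.univ.filter
          (fun φ : E → X => ∀ e ∈ S ν i, φ e ∈ P ν i e)).card) * c ^ M0 :=
          Nat.mul_le_mul_right _ h1
      _ = ∑ ν ∈ ws, ∑ i ∈ I0 ν, (Finset.univ.filter
          (fun φ : E → X => ∀ e ∈ S ν i, φ e ∈ P ν i e)).card * c ^ M0 := by
          rw [Finset.sum_mul]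
          apply Finset.sum_congr rfl
          intro ν _
          rw [Finset.sum_mul]
      _ ≤ ∑ ν ∈ ws, ∑ _i ∈ I0 ν, (Fintype.card X) ^ (Fintype.card E) * c ^ (M0 - m ν) := by
          apply Finset.sum_le_sum
          intro ν hν
          apply Finset.sum_le_sum
          intro i hi
          have e : c ^ M0 = c ^ (m ν) * c ^ (M0 - m ν) := by
            rw [← pow_add]; congr 1; have := hm ν hν; omega
          rw [e, ← mul_assoc]
          exact Nat.mul_le_mul_right _ (hbad ν hν i hi)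
      _ = _ := by
          rw [Finset.sum_mul]
          apply Finset.sum_congr rfl
          intro ν _
          rw [Finset.sum_const, smul_eq_mul]
          ring
  have h3 : 0 < (Fintype.card X) ^ (Fintype.card E) := by positivity
  rw [mul_comm] at h2
  have := Nat.le_of_mul_le_mul_right h2 h3
  omega

/-- The good pairs on an interval do not see the rest. -/
lemma gp_congr {tm : ℕ → ℕ} {G Z G' Z' : Finset ℕ} {l r : ℕ}
    (hG : ∀ x, l ≤ x → x < r → (x ∈ G ↔ x ∈ G')) (hZ : ∀ x, l ≤ x → x < r → (x ∈ Z ↔ x ∈ Z')) :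
    gp tm G Z l r ⊆ gp tm G' Z' l r := by
  intro x hx
  simp only [gp, Finset.mem_filter, Finset.mem_product, Finset.mem_range] at hx ⊢
  obtain ⟨⟨h3, h4⟩, h5, h6, h7, h8, h9, h10⟩ := hx
  refine ⟨⟨(hG _ (by omega) (by omega)).mp h3, h4⟩, h5, h6, h7, ?_, ?_, ?_⟩
  · intro g' hg' h11 h12
    exact h8 g' ((hG _ (by omega) (by omega)).mpr hg') h11 h12
  · intro hcon
    exact h9 ((hZ _ (by omega) (by omega)).mpr hcon)
  · intro hcon
    exact h10 ((hZ _ (by omega) (by omega)).mpr hcon)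

lemma arith_pow (n : ℕ) (hn : 1 ≤ n) : 3 * n ^ 2 + 1 < 2 * 3 ^ n := by
  induction n, hn using Nat.le_induction with
  | base => norm_num
  | succ n hn ih =>
    rcases Nat.lt_or_ge n 2 with h | h
    · have : n = 1 := by omega
      subst this; norm_num
    · rw [pow_succ 3 n]
      nlinarith

/-- The positions of a node. -/
def nd (N l L : ℕ) : Finset (Fin N) := Finset.univ.filter (fun x => l ≤ x.val ∧ x.val < l + L)

lemma nd_card (N l L : ℕ) : (nd N l L).card ≤ L := by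
  have h : (nd N l L).card ≤ (Finset.Ico l (l + L)).card := by
    apply Finset.card_le_card_of_injOn Fin.val
    · intro x hx
      simp only [nd, Finset.coe_filter, Finset.mem_univ, true_and, Set.mem_ofPred_eq] at hx
      rw [Finset.mem_coe, Finset.mem_Ico]
      exact hx
    · intro x _ y _ h
      exact Fin.ext h
  rwa [Nat.card_Ico, Nat.add_sub_cancel_left] at h

/-- The tests inside a node. -/
def TPn {t : ℕ} (l L : ℕ) (up : Bool) (G Z : Finset (Fin (3 ^ t))) (e : Fin (3 ^ t) × Fin (3 ^ t)) :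
    Prop :=
  TP3 (sgF t) up G Z e ∧ e.2 ∈ nd (3 ^ t) l L ∧ pr e ∈ nd (3 ^ t) l L

open Classical in
/-- The good pairs in a node give tests in the node. -/
lemma tpn_card (t : ℕ) (up : Bool) (G Z : Finset (Fin (3 ^ t))) {l L : ℕ} (hr : l + L ≤ 3 ^ t) :
    (gp (sg t) (G.map Fin.valEmbedding) (Z.map Fin.valEmbedding) l (l + L)).card ≤
      (Finset.univ.filter (fun e => TPn l L up G Z e)).card := by
  -- use the exceptional set enlarged by the complement of the node
  have h := tp3_card t up G (Z ∪ (nd (3 ^ t) l L)ᶜ) (l := l) (r := l + L) hr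
    (gp (sg t) (G.map Fin.valEmbedding) (Z.map Fin.valEmbedding) l (l + L)) (by
      apply gp_congr (fun _ _ _ => Iff.rfl)
      intro x h1 h2
      simp only [Finset.mem_map, Finset.mem_union, Finset.mem_compl, nd, Finset.mem_filter,
        Finset.mem_univ, true_and, Fin.valEmbedding_apply]
      constructor
      · rintro ⟨z, hz, rfl⟩
        exact ⟨z, Or.inl hz, rfl⟩
      · rintro ⟨z, hz | hz, rfl⟩
        · exact ⟨z, hz, rfl⟩
        · exact absurd ⟨h1, h2⟩ hz)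
  refine h.trans (Finset.card_le_card ?_)
  intro e he
  simp only [Finset.mem_filter, Finset.mem_univ, true_and] at he ⊢
  obtain ⟨h1, h2, h3, h4, h5⟩ := he
  rw [Finset.mem_union, Finset.mem_compl, not_or, not_not] at h4 h5
  exact ⟨⟨h1, h2, h3, h4.1, h5.1⟩, h4.2, h5.2⟩

open Classical in
/-- Existence of the matrices, second version. -/
lemma exists_hits_B {M : Type} [Fintype M] [DecidableEq M] {τ : M → ℕ}
    (hτ : Function.Injective τ) {D d J a t1 t : ℕ} (hd : 1 ≤ d)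
    (hJ : Fintype.card M + 4 ≤ d * J) (ha : 2 * D ≤ 2 ^ a) (ht1 : t1 = 30 * J + 10)
    (hat : a + 1 ≤ t1) (ht : t = (a + 1) * t1) :
    ∃ φ, Hits D d (sgF t) τ φ := by
  set R := Fintype.card M with hR
  obtain ⟨N, hN⟩ : ∃ N, N = 3 ^ t := ⟨_, rfl⟩
  -- classes: nodes
  let ws : Finset (ℕ × ℕ) := ((Finset.range (t + 1)) ×ˢ (Finset.range (3 ^ t))).filter
    (fun ν => t1 ≤ ν.1 ∧ ν.2 < 3 ^ (t - ν.1))
  let Cfg := Bool × Finset (Fin (3 ^ t)) × Finset (Fin (3 ^ t)) ×
    (Fin (3 ^ t) → Fin d → M → ZMod 2)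
  let node : ℕ × ℕ → Finset (Fin (3 ^ t)) := fun ν => nd (3 ^ t) (ν.2 * 3 ^ ν.1) (3 ^ ν.1)
  let all : ℕ × ℕ → Finset Cfg := fun ν => Finset.univ ×ˢ ((node ν).powerset ×ˢ
    ((node ν).powerset ×ˢ (Fintype.piFinset (fun p => if p ∈ node ν then Finset.univ else {0}))))
  let S : ℕ × ℕ → Cfg → Finset (Fin (3 ^ t) × Fin (3 ^ t)) := fun ν i =>
    Finset.univ.filter (fun e => TPn (ν.2 * 3 ^ ν.1) (3 ^ ν.1) i.1 i.2.1 i.2.2.1 e)
  let I0 : ℕ × ℕ → Finset Cfg := fun ν => (all ν).filter (fun i => J * 3 ^ ν.1 ≤ (S ν i).card ∧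
      ∀ p ∈ node ν, p ∉ i.2.2.1 → ∃ a, Lead τ (i.2.2.2 p) a)
  let P : ℕ × ℕ → Cfg → Fin (3 ^ t) × Fin (3 ^ t) → Finset (M × M → ZMod 2) :=
    fun _ i e => Finset.univ.filter (fun X => ∀ a b, bf X (i.2.2.2 e.2 a) (i.2.2.2 (pr e) b) = 0)
  have hws : ∀ ν ∈ ws, ν.1 ≤ t ∧ t1 ≤ ν.1 ∧ ν.2 < 3 ^ (t - ν.1) := by
    intro ν hν
    simp only [ws, Finset.mem_filter, Finset.mem_product, Finset.mem_range] at hν
    exact ⟨by omega, hν.2.1, hν.2.2⟩
  have hcardall : ∀ ν ∈ ws, (I0 ν).card ≤ 2 ^ (1 + 3 ^ ν.1 * (2 + R * d)) := by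
    intro ν hν
    refine (Finset.card_filter_le _ _).trans ?_
    have hn : (node ν).card ≤ 3 ^ ν.1 := nd_card _ _ _
    simp only [all]
    rw [Finset.card_product, Finset.card_product, Finset.card_product, Finset.card_univ,
      Fintype.card_bool, Finset.card_powerset, Fintype.card_piFinset]
    have e1 : (∏ p : Fin (3 ^ t), (if p ∈ node ν then (Finset.univ : Finset (Fin d → M → ZMod 2))
        else {0}).card) = ((2 ^ R) ^ d) ^ (node ν).card := by
      have : ∀ p : Fin (3 ^ t), (if p ∈ node ν then (Finset.univ : Finset (Fin d → M → ZMod 2))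
        else {0}).card = if p ∈ node ν then (2 ^ R) ^ d else 1 := by
        intro p
        split_ifs
        · rw [Finset.card_univ, Fintype.card_fun, Fintype.card_fun, ZMod.card, Fintype.card_fin]
        · rfl
      simp_rw [this]
      rw [Finset.prod_ite, Finset.prod_const, Finset.prod_const_one, mul_one]
      congr 1
      congr 1
      ext x
      simp
    rw [e1, ← pow_mul, ← pow_mul, ← pow_add, ← pow_add, ← pow_succ']
    apply Nat.pow_le_pow_right (by norm_num)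
    have h1 : R * (d * (node ν).card) ≤ R * (d * 3 ^ ν.1) :=
      Nat.mul_le_mul_left _ (Nat.mul_le_mul_left _ hn)
    have h2 : 3 ^ ν.1 * (2 + R * d) = 2 * 3 ^ ν.1 + R * (d * 3 ^ ν.1) := by ring
    rw [h2]
    omega
  have hcount : ∑ ν ∈ ws, (I0 ν).card * (2 ^ (d ^ 2)) ^ (J * 3 ^ t - J * 3 ^ ν.1) <
      (2 ^ (d ^ 2)) ^ (J * 3 ^ t) := by
    have hterm : ∀ ν ∈ ws, (I0 ν).card * (2 ^ (d ^ 2)) ^ (J * 3 ^ t - J * 3 ^ ν.1) *
        2 ^ (2 * 3 ^ t1) ≤ 2 * (2 ^ (d ^ 2)) ^ (J * 3 ^ t) := by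
      intro ν hν
      obtain ⟨h1, h2, h3⟩ := hws ν hν
      have hle : J * 3 ^ ν.1 ≤ J * 3 ^ t :=
        Nat.mul_le_mul_left _ (Nat.pow_le_pow_right (by norm_num) h1)
      have hle2 : 3 ^ t1 ≤ 3 ^ ν.1 := Nat.pow_le_pow_right (by norm_num) h2
      have h4 : d * (R + 4) ≤ d * (d * J) := Nat.mul_le_mul_left _ hJ
      have h5 : 3 ^ ν.1 * (d * (R + 4)) ≤ 3 ^ ν.1 * (d * (d * J)) := Nat.mul_le_mul_left _ h4
      have h6 : 3 ^ ν.1 ≤ d * 3 ^ ν.1 := Nat.le_mul_of_pos_left _ hd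
      calc (I0 ν).card * (2 ^ (d ^ 2)) ^ (J * 3 ^ t - J * 3 ^ ν.1) * 2 ^ (2 * 3 ^ t1)
          ≤ 2 ^ (1 + 3 ^ ν.1 * (2 + R * d)) * (2 ^ (d ^ 2)) ^ (J * 3 ^ t - J * 3 ^ ν.1) *
            2 ^ (2 * 3 ^ t1) :=
            Nat.mul_le_mul_right _ (Nat.mul_le_mul_right _ (hcardall ν hν))
        _ = 2 ^ ((1 + 3 ^ ν.1 * (2 + R * d)) + d ^ 2 * (J * 3 ^ t - J * 3 ^ ν.1) + 2 * 3 ^ t1) := by
            rw [← pow_mul, ← pow_add, ← pow_add]
        _ ≤ 2 ^ (1 + d ^ 2 * (J * 3 ^ t)) := by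
            apply Nat.pow_le_pow_right (by norm_num)
            have e1 : d ^ 2 * (J * 3 ^ t) = d ^ 2 * (J * 3 ^ t - J * 3 ^ ν.1)
                + d ^ 2 * (J * 3 ^ ν.1) := by
              rw [← mul_add]; congr 1; omega
            have e2 : d ^ 2 * (J * 3 ^ ν.1) = 3 ^ ν.1 * (d * (d * J)) := by ring
            have e3 : 3 ^ ν.1 * (d * (R + 4)) = 3 ^ ν.1 * (R * d) + 4 * (d * 3 ^ ν.1) := by ring
            have e4 : 3 ^ ν.1 * (2 + R * d) = 2 * 3 ^ ν.1 + 3 ^ ν.1 * (R * d) := by ring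
            rw [e1, e2, e4]
            omega
        _ = 2 * (2 ^ (d ^ 2)) ^ (J * 3 ^ t) := by
            rw [← pow_mul, pow_add, pow_one]
    have hsum := Finset.sum_le_sum hterm
    rw [← Finset.sum_mul, Finset.sum_const, smul_eq_mul] at hsum
    have hwc : ws.card ≤ (t + 1) * 3 ^ t := by
      refine (Finset.card_filter_le _ _).trans ?_
      rw [Finset.card_product, Finset.card_range, Finset.card_range]
    have hsmall : ws.card * 2 < 2 ^ (2 * 3 ^ t1) := by
      have h1 : t + 1 ≤ 2 ^ t := Nat.lt_two_pow_self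
      have h2 : 3 ^ t ≤ 2 ^ (2 * t) := by
        rw [pow_mul]; exact Nat.pow_le_pow_left (by norm_num) t
      have h3 : ws.card * 2 ≤ 2 ^ (3 * t + 1) := by
        calc ws.card * 2 ≤ (2 ^ t * 2 ^ (2 * t)) * 2 :=
              Nat.mul_le_mul_right _ (hwc.trans (Nat.mul_le_mul h1 h2))
          _ = 2 ^ (3 * t + 1) := by rw [← pow_add, ← pow_succ]; congr 1; ring
      refine lt_of_le_of_lt h3 (Nat.pow_lt_pow_right (by norm_num) ?_)
      have h4 := arith_pow t1 (by omega)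
      have h5 : t ≤ t1 ^ 2 := by
        rw [ht, sq]; exact Nat.mul_le_mul_right _ hat
      omega
    set Y := (2 ^ (d ^ 2)) ^ (J * 3 ^ t) with hY
    have hYpos : 0 < Y := by positivity
    by_contra hcon
    push Not at hcon
    have h1 : Y * 2 ^ (2 * 3 ^ t1) ≤ ws.card * (2 * Y) := (Nat.mul_le_mul_right _ hcon).trans hsum
    have h2 : ws.card * (2 * Y) = (ws.card * 2) * Y := by ring
    have h3 : (ws.card * 2) * Y < 2 ^ (2 * 3 ^ t1) * Y := Nat.mul_lt_mul_of_pos_right hsmall hYpos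
    rw [h2] at h1
    have h4 : Y * 2 ^ (2 * 3 ^ t1) = 2 ^ (2 * 3 ^ t1) * Y := by ring
    omega
  obtain ⟨φ, hφ⟩ := exists_avoid2 ws I0 S P (2 ^ (d ^ 2)) (J * 3 ^ t) (fun ν => J * 3 ^ ν.1)
    (fun ν hν => Nat.mul_le_mul_left _ (Nat.pow_le_pow_right (by norm_num) (hws ν hν).1))
    (by
      intro ν _ i hi
      exact (Finset.mem_filter.mp hi).2.1)
    (by
      intro ν _ i hi e he
      have hi' := (Finset.mem_filter.mp hi).2.2
      have he' : TPn (ν.2 * 3 ^ ν.1) (3 ^ ν.1) i.1 i.2.1 i.2.2.1 e := by simpa [S] using he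
      exact card_constraint hτ (hi' _ he'.2.1 he'.1.2.2.2.1) (hi' _ he'.2.2 he'.1.2.2.2.2))
    hcount
  refine ⟨φ, ?_⟩
  intro up G Z V h1 h2 h3
  -- find the node
  set Gn := G.map Fin.valEmbedding with hGn
  set Zn := Z.map Fin.valEmbedding with hZn
  have hGn1 : ∀ g ∈ Gn, g < 3 ^ t := by
    intro g hg
    rw [hGn, Finset.mem_map] at hg
    obtain ⟨g0, _, rfl⟩ := hg
    exact g0.2
  obtain ⟨j, m, hj1, hj2, hm, hcard⟩ := exists_node Gn Zn J t t1 ht1 a t 0 le_rfl
    (by rw [Nat.sub_self]; norm_num) (by rw [ht]) (by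
      rw [zero_mul]
      unfold wt
      rw [zero_add]
      have hGc : zc Gn 0 (3 ^ t) = G.card := by
        rw [← Finset.card_map Fin.valEmbedding (s := G)]
        unfold zc
        congr 1
        apply Finset.filter_true_of_mem
        intro g hg
        exact ⟨Nat.zero_le _, hGn1 g hg⟩
      have hZc : zc Zn 0 (3 ^ t) ≤ Z.card := by
        refine (Finset.card_filter_le _ _).trans ?_
        rw [hZn, Finset.card_map]
      rw [hGc]
      have e1 : (3 : ℤ) ^ t < D * G.card := by exact_mod_cast h1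
      have e2 : (40 : ℤ) * Z.card ≤ G.card := by exact_mod_cast h2
      have e3 : (zc Zn 0 (3 ^ t) : ℤ) ≤ Z.card := by exact_mod_cast hZc
      have e4 : (2 : ℤ) * D ≤ 2 ^ a := by exact_mod_cast ha
      have e5 : (G.card : ℤ) ≤ 2 * ((G.card : ℤ) - 20 * (zc Zn 0 (3 ^ t) : ℤ)) := by linarith
      have e6 : (0 : ℤ) ≤ (G.card : ℤ) := by positivity
      have e7 : (0 : ℤ) ≤ (D : ℤ) := by positivity
      have e8 : (D : ℤ) * G.card ≤ D * (2 * ((G.card : ℤ) - 20 * (zc Zn 0 (3 ^ t) : ℤ))) :=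
        mul_le_mul_of_nonneg_left e5 e7
      have e9 : (0 : ℤ) ≤ (G.card : ℤ) - 20 * (zc Zn 0 (3 ^ t) : ℤ) := by linarith
      have e10 : (2 : ℤ) * D * ((G.card : ℤ) - 20 * (zc Zn 0 (3 ^ t) : ℤ)) ≤
        2 ^ a * ((G.card : ℤ) - 20 * (zc Zn 0 (3 ^ t) : ℤ)) := mul_le_mul_of_nonneg_right e4 e9
      linarith)
  set l := m * 3 ^ j with hl
  have hlN : l + 3 ^ j ≤ 3 ^ t := by
    have h4 : (m + 1) * 3 ^ j ≤ 3 ^ (t - j) * 3 ^ j := Nat.mul_le_mul_right _ hm
    rw [← pow_add, Nat.sub_add_cancel hj2, add_mul, one_mul] at h4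
    exact h4
  have hνws : ((j, m) : ℕ × ℕ) ∈ ws := by
    simp only [ws, Finset.mem_filter, Finset.mem_product, Finset.mem_range]
    refine ⟨⟨by omega, ?_⟩, hj1, hm⟩
    exact lt_of_lt_of_le hm (Nat.pow_le_pow_right (by norm_num) (Nat.sub_le _ _))
  -- the restricted configuration
  set B := nd (3 ^ t) l (3 ^ j) with hB
  obtain ⟨V', hV'⟩ : ∃ V' : Fin (3 ^ t) → Fin d → M → ZMod 2,
    V' = fun p => if p ∈ B then V p else 0 := ⟨_, rfl⟩
  have hres : J * 3 ^ j ≤ (S (j, m) (up, G ∩ B, Z ∩ B, V')).card := by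
    refine (hcard.trans (Finset.card_le_card ?_)).trans
      (tpn_card t up (G ∩ B) (Z ∩ B) (l := l) (L := 3 ^ j) hlN)
    apply gp_congr
    · intro x hx1 hx2
      simp only [hGn, Finset.mem_map, Finset.mem_inter, hB, nd, Finset.mem_filter,
        Finset.mem_univ, true_and, Fin.valEmbedding_apply]
      constructor
      · rintro ⟨z, hz, rfl⟩
        exact ⟨z, ⟨hz, hx1, hx2⟩, rfl⟩
      · rintro ⟨z, hz, rfl⟩
        exact ⟨z, hz.1, rfl⟩
    · intro x hx1 hx2
      simp only [hZn, Finset.mem_map, Finset.mem_inter, hB, nd, Finset.mem_filter,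
        Finset.mem_univ, true_and, Fin.valEmbedding_apply]
      constructor
      · rintro ⟨z, hz, rfl⟩
        exact ⟨z, ⟨hz, hx1, hx2⟩, rfl⟩
      · rintro ⟨z, hz, rfl⟩
        exact ⟨z, hz.1, rfl⟩
  obtain ⟨e, he, heP⟩ := hφ (j, m) hνws (up, G ∩ B, Z ∩ B, V') (by
    simp only [I0, Finset.mem_filter]
    refine ⟨?_, hres, ?_⟩
    · refine Finset.mem_product.mpr ⟨Finset.mem_univ _, Finset.mem_product.mpr
        ⟨Finset.mem_powerset.mpr Finset.inter_subset_right, Finset.mem_product.mpr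
        ⟨Finset.mem_powerset.mpr Finset.inter_subset_right, ?_⟩⟩⟩
      rw [Fintype.mem_piFinset]
      intro p
      rw [hV']
      by_cases hp : p ∈ B
      · have hp' : p ∈ node (j, m) := hp
        rw [if_pos hp']; exact Finset.mem_univ _
      · have hp' : p ∉ node (j, m) := hp
        rw [if_neg hp']
        simp only [if_neg hp, Finset.mem_singleton]
    · intro p hp hpZ
      have hp' : p ∈ B := hp
      have hpZ' : p ∉ Z := by
        intro hcon
        exact hpZ (Finset.mem_inter.mpr ⟨hcon, hp'⟩)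
      obtain ⟨a, ha⟩ := h3 p hpZ'
      refine ⟨a, ?_⟩
      rw [hV']
      simp only [if_pos hp']
      exact ha)
  have he' : TPn l (3 ^ j) up (G ∩ B) (Z ∩ B) e := by simpa [S] using he
  obtain ⟨⟨t1', t2', t3', t4', t5'⟩, heB, heB'⟩ := he'
  have heB1 : e.2 ∈ B := heB
  have heB2 : pr e ∈ B := heB'
  refine ⟨e, ⟨(Finset.mem_inter.mp t1').1, t2', ?_, ?_, ?_⟩, ?_⟩
  · -- the window condition
    have hwin : ∀ x y : ℕ, l ≤ x → y < l + 3 ^ j → Win3 (sgF t) (G ∩ B) e.1 x y →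
        Win3 (sgF t) G e.1 x y := by
      intro x y hx hy hw g' hg' h4 h5
      apply hw g' _ h4 h5
      rw [Finset.mem_inter]
      refine ⟨hg', ?_⟩
      simp only [hB, nd, Finset.mem_filter, Finset.mem_univ, true_and]
      omega
    have hb1 : l ≤ e.2.val ∧ e.2.val < l + 3 ^ j := by
      simpa [hB, nd] using heB1
    have hb2 : l ≤ (pr e).val ∧ (pr e).val < l + 3 ^ j := by
      simpa [hB, nd] using heB2
    split_ifs at t3' ⊢
    · exact ⟨t3'.1, hwin _ _ hb1.1 hb2.2 t3'.2⟩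
    · exact ⟨t3'.1, hwin _ _ hb2.1 hb1.2 t3'.2⟩
  · intro hcon
    exact t4' (Finset.mem_inter.mpr ⟨hcon, heB1⟩)
  · intro hcon
    exact t5' (Finset.mem_inter.mpr ⟨hcon, heB2⟩)
  · simp only [P, Finset.mem_filter, Finset.mem_univ, true_and] at heP
    push Not at heP
    obtain ⟨i0, j0, hne⟩ := heP
    refine ⟨i0, j0, ?_⟩
    rw [hV'] at hne
    simp only [if_pos heB1, if_pos heB2] at hne
    exact hne

end Pool.Agent.H39.QT
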