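import Pool.Agent.H39.HeavyPath

/-!
# A time order on the gaps with many good pairs (helper39, MP_6c3374)

`sg t` orders `0, ..., 3 ^ t - 1` lexicographically in the ternary digits, the middle digit first.
-/

namespace Pool.Agent.H39.QT

open Pool.Agent.H39

/-- The order of the digits: the middle one is the first. -/
def bt (i : ℕ) : ℕ := if i = 1 then 0 else if i = 0 then 1 else i

/-- The time of `g` among `0, ..., 3 ^ t - 1`. -/
def sg : ℕ → ℕ → ℕ
  | 0, _ => 0
  | t + 1, g => bt (g / 3 ^ t) * 3 ^ t + sg t (g % 3 ^ t)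

lemma bt_le {i : ℕ} (h : i < 3) : bt i ≤ 2 := by
  unfold bt; split_ifs <;> omega

lemma bt_inj {i j : ℕ} (h : bt i = bt j) : i = j := by
  unfold bt at h; split_ifs at h <;> omega

lemma sg_lt (t g : ℕ) (hg : g < 3 ^ t) : sg t g < 3 ^ t := by
  induction t generalizing g with
  | zero => simp [sg]
  | succ t ih =>
    have h1 := ih (g % 3 ^ t) (Nat.mod_lt _ (by positivity))
    have h2 : g / 3 ^ t < 3 := by
      rw [Nat.div_lt_iff_lt_mul (by positivity)]
      rw [pow_succ] at hg; omega
    have h3 : bt (g / 3 ^ t) * 3 ^ t ≤ 2 * 3 ^ t := Nat.mul_le_mul_right _ (bt_le h2)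
    rw [sg, pow_succ]
    omega

lemma sg_inj {t g g' : ℕ} (hg : g < 3 ^ t) (hg' : g' < 3 ^ t) (h : sg t g = sg t g') : g = g' := by
  induction t generalizing g g' with
  | zero => simp at hg hg'; omega
  | succ t ih =>
    rw [sg, sg] at h
    have hp : 0 < 3 ^ t := by positivity
    have h1 := sg_lt t (g % 3 ^ t) (Nat.mod_lt _ hp)
    have h2 := sg_lt t (g' % 3 ^ t) (Nat.mod_lt _ hp)
    have h3 : bt (g / 3 ^ t) = bt (g' / 3 ^ t) := by
      rcases lt_trichotomy (bt (g / 3 ^ t)) (bt (g' / 3 ^ t)) with h4 | h4 | h4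
      · have : (bt (g / 3 ^ t) + 1) * 3 ^ t ≤ bt (g' / 3 ^ t) * 3 ^ t := Nat.mul_le_mul_right _ h4
        rw [add_mul] at this; omega
      · exact h4
      · have : (bt (g' / 3 ^ t) + 1) * 3 ^ t ≤ bt (g / 3 ^ t) * 3 ^ t := Nat.mul_le_mul_right _ h4
        rw [add_mul] at this; omega
    have h4 : sg t (g % 3 ^ t) = sg t (g' % 3 ^ t) := by rw [h3] at h; omega
    have h5 := ih (Nat.mod_lt _ hp) (Nat.mod_lt _ hp) h4
    have h6 := bt_inj h3
    rw [← Nat.div_add_mod g (3 ^ t), ← Nat.div_add_mod g' (3 ^ t), h5, h6]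

lemma sg_child {t i x : ℕ} (hx : x < 3 ^ t) : sg (t + 1) (i * 3 ^ t + x) = bt i * 3 ^ t + sg t x := by
  have hp : 0 < 3 ^ t := by positivity
  rw [sg]
  have h1 : (i * 3 ^ t + x) / 3 ^ t = i := by
    rw [Nat.add_comm, Nat.add_mul_div_right _ _ hp, Nat.div_eq_of_lt hx, zero_add]
  have h2 : (i * 3 ^ t + x) % 3 ^ t = x := by
    rw [Nat.add_comm, Nat.add_mul_mod_self_right, Nat.mod_eq_of_lt hx]
  rw [h1, h2]

lemma zc_le (Z : Finset ℕ) {a b : ℕ} : zc Z a b ≤ b - a := by
  unfold zc
  have : Z.filter (fun g => a ≤ g ∧ g < b) ⊆ Finset.Ico a b := by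
    intro x hx
    simp only [Finset.mem_filter] at hx
    simp only [Finset.mem_Ico]
    exact hx.2
  have h := Finset.card_le_card this
  rwa [Nat.card_Ico] at h

/-- The good distances at `v` in the upper half of `[1, lam]`. -/
def gu (Z : Finset ℕ) (v lam : ℕ) : Finset ℕ :=
  (Finset.Ioc (lam / 2) lam).filter (fun d => v - d ∉ Z ∧ v + d - 1 ∉ Z)

lemma gu_card (Z : Finset ℕ) {v lam a b : ℕ} (ha : a + lam ≤ v) (hb : v + lam ≤ b) :
    lam - lam / 2 ≤ (gu Z v lam).card + zc Z a b := by
  have h1 : Finset.Ioc (lam / 2) lam ⊆ gu Z v lam ∪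
      ((Finset.Ioc (lam / 2) lam).filter (fun d => v - d ∈ Z) ∪
      (Finset.Ioc (lam / 2) lam).filter (fun d => v + d - 1 ∈ Z)) := by
    intro d hd
    simp only [gu, Finset.mem_union, Finset.mem_filter]
    tauto
  have h2 := Finset.card_le_card h1
  have h3 := Finset.card_union_le (gu Z v lam) ((Finset.Ioc (lam / 2) lam).filter
      (fun d => v - d ∈ Z) ∪ (Finset.Ioc (lam / 2) lam).filter (fun d => v + d - 1 ∈ Z))
  have h4 := Finset.card_union_le ((Finset.Ioc (lam / 2) lam).filter (fun d => v - d ∈ Z))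
      ((Finset.Ioc (lam / 2) lam).filter (fun d => v + d - 1 ∈ Z))
  have h5 : ((Finset.Ioc (lam / 2) lam).filter (fun d => v - d ∈ Z)).card ≤ zc Z a v := by
    unfold zc
    apply Finset.card_le_card_of_injOn (fun d => v - d)
    · intro d hd
      simp only [Finset.coe_filter, Finset.mem_Ioc, Set.mem_ofPred_eq] at hd ⊢
      exact ⟨hd.2, by omega, by omega⟩
    · intro d hd d' hd' e
      simp only [Finset.coe_filter, Finset.mem_Ioc, Set.mem_ofPred_eq] at hd hd' e
      omega
  have h6 : ((Finset.Ioc (lam / 2) lam).filter (fun d => v + d - 1 ∈ Z)).card ≤ zc Z v b := by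
    unfold zc
    apply Finset.card_le_card_of_injOn (fun d => v + d - 1)
    · intro d hd
      simp only [Finset.coe_filter, Finset.mem_Ioc, Set.mem_ofPred_eq] at hd ⊢
      exact ⟨hd.2, by omega, by omega⟩
    · intro d hd d' hd' e
      simp only [Finset.coe_filter, Finset.mem_Ioc, Set.mem_ofPred_eq] at hd hd' e
      omega
  have h7 := zc_add Z (show a ≤ v by omega) (show v ≤ b by omega)
  rw [Nat.card_Ioc] at h2
  omega

lemma gp_bounds {t : ℕ → ℕ} {G Z : Finset ℕ} {l r : ℕ} {x : ℕ × ℕ} (h : x ∈ gp t G Z l r) :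
    1 ≤ x.2 ∧ l + x.2 ≤ x.1 ∧ x.1 + x.2 ≤ r := by
  simp only [gp, Finset.mem_filter] at h
  exact ⟨h.2.1, h.2.2.1, h.2.2.2.1⟩

lemma gp_mono {t : ℕ → ℕ} {G Z : Finset ℕ} {l r l' r' : ℕ} (hl : l' ≤ l) (hr : r ≤ r') :
    gp t G Z l r ⊆ gp t G Z l' r' := by
  intro x hx
  simp only [gp, Finset.mem_filter, Finset.mem_product, Finset.mem_range] at hx ⊢
  obtain ⟨⟨h3, h4⟩, h5, h6, h7, h8, h9, h10⟩ := hx
  exact ⟨⟨h3, by omega⟩, h5, by omega, by omega, h8, h9, h10⟩

/-- Three consecutive intervals. -/
lemma gp_three (t : ℕ → ℕ) (G Z : Finset ℕ) (l L : ℕ) (X : Finset (ℕ × ℕ))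
    (hX : X ⊆ gp t G Z l (l + 3 * L)) (hX2 : ∀ x ∈ X, L < 2 * x.2) :
    (gp t G Z l (l + L)).card + (gp t G Z (l + L) (l + 2 * L)).card +
      (gp t G Z (l + 2 * L) (l + 3 * L)).card + X.card ≤ (gp t G Z l (l + 3 * L)).card := by
  rw [← Finset.card_union_of_disjoint, ← Finset.card_union_of_disjoint,
    ← Finset.card_union_of_disjoint]
  · apply Finset.card_le_card
    intro x hx
    simp only [Finset.mem_union] at hx
    rcases hx with ((hx | hx) | hx) | hx
    · exact gp_mono (by omega) (by omega) hx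
    · exact gp_mono (by omega) (by omega) hx
    · exact gp_mono (by omega) (by omega) hx
    · exact hX hx
  · rw [Finset.disjoint_left]
    intro x hx hx'
    have h2 := hX2 x hx'
    simp only [Finset.mem_union] at hx
    rcases hx with (hx | hx) | hx <;> · have := gp_bounds hx; omega
  · rw [Finset.disjoint_left]
    intro x hx hx'
    have h2 := gp_bounds hx'
    simp only [Finset.mem_union] at hx
    rcases hx with hx | hx <;> · have := gp_bounds hx; omega
  · rw [Finset.disjoint_left]
    intro x hx hx'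
    have h2 := gp_bounds hx'
    have := gp_bounds hx
    omega

/-- The count of the good pairs on a node. -/
lemma claim3 (tm : ℕ → ℕ) (G Z : Finset ℕ) : ∀ t l : ℕ,
    (∀ x y, x < 3 ^ t → y < 3 ^ t → sg t x ≤ sg t y → tm (l + x) ≤ tm (l + y)) →
    t * zc G l (l + 3 ^ t) ≤ 6 * (gp tm G Z l (l + 3 ^ t)).card + 6 * t * zc Z l (l + 3 ^ t)
      + 2 * 3 ^ t := by
  intro t
  induction t with
  | zero => intro l _; simp
  | succ t ih =>
    intro l hl
    obtain ⟨L, hL⟩ : ∃ L, L = 3 ^ t := ⟨_, rfl⟩
    have hLp : 0 < L := by rw [hL]; positivity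
    have e3 : 3 ^ (t + 1) = 3 * L := by rw [pow_succ, hL]; ring
    rw [← hL] at ih
    have hchild : ∀ i, i < 3 → ∀ x y, x < L → y < L → sg t x ≤ sg t y →
        tm (l + i * L + x) ≤ tm (l + i * L + y) := by
      intro i hi x y hx hy hxy
      have h1 : i * L ≤ 2 * L := Nat.mul_le_mul_right _ (by omega)
      have := hl (i * L + x) (i * L + y) (by rw [e3]; omega) (by rw [e3]; omega)
      rw [hL, sg_child (by rw [← hL]; exact hx), sg_child (by rw [← hL]; exact hy), ← hL,
        ← add_assoc, ← add_assoc] at this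
      exact this (by omega)
    have i0 := ih l (by
      intro x y hx hy hxy
      have := hchild 0 (by norm_num) x y hx hy hxy
      rwa [zero_mul, add_zero] at this)
    have i1 := ih (l + L) (by
      intro x y hx hy hxy
      have := hchild 1 (by norm_num) x y hx hy hxy
      rwa [one_mul] at this)
    have i2 := ih (l + 2 * L) (by
      intro x y hx hy hxy
      exact hchild 2 (by norm_num) x y hx hy hxy)
    rw [show l + L + L = l + 2 * L by ring] at i1
    rw [show l + 2 * L + L = l + 3 * L by ring] at i2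
    rw [e3]
    have zG1 := zc_add G (show l ≤ l + L by omega) (show l + L ≤ l + 2 * L by omega)
    have zG2 := zc_add G (show l ≤ l + 2 * L by omega) (show l + 2 * L ≤ l + 3 * L by omega)
    have zZ1 := zc_add Z (show l ≤ l + L by omega) (show l + L ≤ l + 2 * L by omega)
    have zZ2 := zc_add Z (show l ≤ l + 2 * L by omega) (show l + 2 * L ≤ l + 3 * L by omega)
    have nG : zc G l (l + 3 * L) ≤ 3 * L := by
      have := zc_le G (a := l) (b := l + 3 * L); omega
    have nG0 : zc G l (l + L) ≤ L := by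
      have := zc_le G (a := l) (b := l + L); omega
    have nG2 : zc G (l + 2 * L) (l + 3 * L) ≤ L := by
      have := zc_le G (a := l + 2 * L) (b := l + 3 * L); omega
    by_cases hne : (G.filter (fun g => l + L ≤ g ∧ g < l + 2 * L)).Nonempty
    · -- good node
      obtain ⟨v, hv, hvmin⟩ := Finset.exists_min_image _ (fun g => sg t (g - (l + L))) hne
      simp only [Finset.mem_filter] at hv hvmin
      obtain ⟨hvG, hv1, hv2⟩ := hv
      have hgu := gu_card Z (v := v) (lam := L) (a := l) (b := l + 3 * L) (by omega) (by omega)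
      have hthree := gp_three tm G Z l L
        ((gu Z v L).map ⟨fun d => (v, d), fun x y h => by simpa using h⟩) (by
          intro x hx
          simp only [Finset.mem_map, gu, Finset.mem_filter, Finset.mem_Ioc] at hx
          obtain ⟨d, ⟨⟨h3, h4⟩, h5, h6⟩, rfl⟩ := hx
          simp only [gp, Finset.mem_filter, Finset.mem_product, Finset.mem_range]
          refine ⟨⟨hvG, ?_⟩, ?_, ?_, ?_, ?_, h5, h6⟩
          · show d < l + 3 * L + 1
            omega
          · show 1 ≤ d
            omega
          · show l + d ≤ v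
            omega
          · show v + d ≤ l + 3 * L
            omega
          · intro g' hg' h7 h8
            have h7' : v < g' + d := h7
            have h8' : g' < v + d := h8
            show tm v ≤ tm g'
            -- compare the times
            have key : sg (t + 1) (v - l) ≤ sg (t + 1) (g' - l) := by
              have ev : v - l = 1 * 3 ^ t + (v - (l + L)) := by rw [← hL]; omega
              rw [ev, sg_child (by rw [← hL]; omega)]
              have hb1 : bt 1 = 0 := by decide
              rw [hb1, zero_mul, zero_add]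
              by_cases hm : l + L ≤ g' ∧ g' < l + 2 * L
              · have eg : g' - l = 1 * 3 ^ t + (g' - (l + L)) := by rw [← hL]; omega
                rw [eg, sg_child (by rw [← hL]; omega), hb1, zero_mul, zero_add]
                exact hvmin g' ⟨hg', hm⟩
              · have hs := sg_lt t (v - (l + L)) (by rw [← hL]; omega)
                by_cases hlo : g' < l + L
                · have eg : g' - l = 0 * 3 ^ t + (g' - l) := by omega
                  rw [eg, sg_child (by rw [← hL]; omega)]
                  have hb0 : bt 0 = 1 := by decide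
                  rw [hb0]; omega
                · have eg : g' - l = 2 * 3 ^ t + (g' - (l + 2 * L)) := by rw [← hL]; omega
                  rw [eg, sg_child (by rw [← hL]; omega)]
                  have hb2 : bt 2 = 2 := by decide
                  rw [hb2]; omega
            have := hl (v - l) (g' - l) (by rw [e3]; omega) (by rw [e3]; omega) key
            rwa [show l + (v - l) = v by omega, show l + (g' - l) = g' by omega] at this) (by
          intro x hx
          simp only [Finset.mem_map, gu, Finset.mem_filter, Finset.mem_Ioc] at hx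
          obtain ⟨d, ⟨⟨h3, h4⟩, h5, h6⟩, rfl⟩ := hx
          show L < 2 * d
          omega)
      rw [Finset.card_map] at hthree
      have hhalf : 3 * L ≤ 6 * (L - L / 2) := by omega
      have et : ∀ z, 6 * (t + 1) * z = 6 * t * z + 6 * z := by intro z; ring
      have et2 : ∀ z, (t + 1) * z = t * z + z := by intro z; ring
      rw [et, et2]
      have m1 : t * zc G l (l + 3 * L) = t * zc G l (l + L) + t * zc G (l + L) (l + 2 * L)
          + t * zc G (l + 2 * L) (l + 3 * L) := by rw [zG2, zG1]; ring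
      have m2 : 6 * t * zc Z l (l + 3 * L) = 6 * t * zc Z l (l + L)
          + 6 * t * zc Z (l + L) (l + 2 * L) + 6 * t * zc Z (l + 2 * L) (l + 3 * L) := by
        rw [zZ2, zZ1]; ring
      omega
    · -- bad node
      rw [Finset.not_nonempty_iff_eq_empty] at hne
      have h0 : zc G (l + L) (l + 2 * L) = 0 := by unfold zc; rw [hne]; rfl
      have hthree := gp_three tm G Z l L ∅ (Finset.empty_subset _) (by simp)
      rw [Finset.card_empty] at hthree
      have et : ∀ z, 6 * (t + 1) * z = 6 * t * z + 6 * z := by intro z; ring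
      have et2 : ∀ z, (t + 1) * z = t * z + z := by intro z; ring
      rw [et, et2]
      have m1 : t * zc G l (l + 3 * L) = t * zc G l (l + L) + t * zc G (l + L) (l + 2 * L)
          + t * zc G (l + 2 * L) (l + 3 * L) := by rw [zG2, zG1]; ring
      have m2 : 6 * t * zc Z l (l + 3 * L) = 6 * t * zc Z l (l + L)
          + 6 * t * zc Z (l + L) (l + 2 * L) + 6 * t * zc Z (l + 2 * L) (l + 3 * L) := by
        rw [zZ2, zZ1]; ring
      have m3 : t * zc G (l + L) (l + 2 * L) = 0 := by rw [h0, mul_zero]
      omega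

/-- Many good pairs. -/
lemma many_good3 (D J t : ℕ) (hD : 1 ≤ D) (ht : t = 10 * D * (J + 1)) (G Z : Finset ℕ)
    (hG : ∀ g ∈ G, g < 3 ^ t) (h1 : 3 ^ t < D * G.card) (h2 : 20 * Z.card ≤ G.card) :
    J * 3 ^ t ≤ (gp (sg t) G Z 0 (3 ^ t)).card := by
  have h := claim3 (sg t) G Z t 0 (by
    intro x y _ _ h
    rwa [zero_add, zero_add])
  rw [zero_add] at h
  have hGc : zc G 0 (3 ^ t) = G.card := by
    unfold zc
    congr 1
    apply Finset.filter_true_of_mem
    intro g hg
    exact ⟨Nat.zero_le _, hG g hg⟩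
  have hZc : zc Z 0 (3 ^ t) ≤ Z.card := Finset.card_filter_le _ _
  rw [hGc] at h
  -- everything in terms of `n = G.card` and `N = 3 ^ t`
  set n := G.card with hn
  set N := 3 ^ t with hN
  set g := (gp (sg t) G Z 0 N).card with hg
  have h3 : 6 * t * zc Z 0 N ≤ 6 * t * Z.card := Nat.mul_le_mul_left _ hZc
  have h4 : t * (20 * Z.card) ≤ t * n := Nat.mul_le_mul_left _ h2
  have h5 : 7 * (t * n) ≤ 60 * g + 20 * N := by nlinarith
  have h6 : t * N ≤ t * (D * n) := Nat.mul_le_mul_left _ h1.le
  have h7 : 7 * (t * N) ≤ D * (60 * g + 20 * N) := by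
    calc 7 * (t * N) ≤ 7 * (t * (D * n)) := by omega
      _ = D * (7 * (t * n)) := by ring
      _ ≤ D * (60 * g + 20 * N) := Nat.mul_le_mul_left _ h5
  have h8 : 7 * (t * N) = D * (70 * (J + 1) * N) := by rw [ht]; ring
  rw [h8] at h7
  have h9 := Nat.le_of_mul_le_mul_left h7 (by omega)
  nlinarith

end Pool.Agent.H39.QT
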