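import Pool.Agent.H39.QT.Sig

/-!
# Density increment for the gaps (helper39, MP_6c3374)
-/

namespace Pool.Agent.H39.QT

open Pool.Agent.H39 Finset

/-- The times on the node `[l, l + 3 ^ j)` are ordered like `sg j`. -/
def OC (tm : ℕ → ℕ) (l j : ℕ) : Prop :=
  ∀ x y, x < 3 ^ j → y < 3 ^ j → sg j x ≤ sg j y → tm (l + x) ≤ tm (l + y)

lemma OC.child {tm : ℕ → ℕ} {l j : ℕ} (h : OC tm l (j + 1)) {i : ℕ} (hi : i < 3) :
    OC tm (l + i * 3 ^ j) j := by
  intro x y hx hy hxy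
  have h1 : i * 3 ^ j ≤ 2 * 3 ^ j := Nat.mul_le_mul_right _ (by omega)
  have e3 : 3 ^ (j + 1) = 3 * 3 ^ j := by rw [pow_succ]; ring
  have := h (i * 3 ^ j + x) (i * 3 ^ j + y) (by rw [e3]; omega) (by rw [e3]; omega)
  rw [sg_child hx, sg_child hy, ← add_assoc, ← add_assoc] at this
  exact this (by omega)

lemma sg_aligned (s j m x : ℕ) (hm : m < 3 ^ s) (hx : x < 3 ^ j) :
    sg (s + j) (m * 3 ^ j + x) = sg s m * 3 ^ j + sg j x := by
  induction s generalizing m with
  | zero =>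
    have : m = 0 := by simpa using hm
    subst this
    simp [sg]
  | succ s ih =>
    obtain ⟨c, m', hc, hm'⟩ : ∃ c m', m' < 3 ^ s ∧ m = c * 3 ^ s + m' :=
      ⟨m / 3 ^ s, m % 3 ^ s, Nat.mod_lt _ (by positivity), by
        rw [mul_comm]; exact (Nat.div_add_mod m (3 ^ s)).symm⟩
    subst hm'
    have e1 : (c * 3 ^ s + m') * 3 ^ j + x = c * 3 ^ (s + j) + (m' * 3 ^ j + x) := by
      rw [pow_add]; ring
    have h1 : m' * 3 ^ j + x < 3 ^ (s + j) := by
      rw [pow_add]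
      have : (m' + 1) * 3 ^ j ≤ 3 ^ s * 3 ^ j := Nat.mul_le_mul_right _ hc
      rw [add_mul] at this
      omega
    rw [show s + 1 + j = (s + j) + 1 by ring, e1, sg_child h1, ih m' hc, sg_child hc, pow_add]
    ring

lemma oc_aligned {t j m : ℕ} (hj : j ≤ t) (hm : m < 3 ^ (t - j)) : OC (sg t) (m * 3 ^ j) j := by
  intro x y hx hy hxy
  obtain ⟨s, rfl⟩ : ∃ s, t = s + j := ⟨t - j, by omega⟩
  rw [Nat.add_sub_cancel] at hm
  rw [sg_aligned s j m x hm hx, sg_aligned s j m y hm hy]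
  omega

/-- The number of descendants `i` levels below the node `[l, l + 3 ^ j)` which meet `G`. -/
def hcn (G : Finset ℕ) : ℕ → ℕ → ℕ → ℕ
  | 0, l, j => if zc G l (l + 3 ^ j) = 0 then 0 else 1
  | i + 1, l, j => hcn G i l (j - 1) + hcn G i (l + 3 ^ (j - 1)) (j - 1)
      + hcn G i (l + 2 * 3 ^ (j - 1)) (j - 1)

lemma hcn_le (G : Finset ℕ) (i l j : ℕ) : hcn G i l j ≤ 3 ^ i := by
  induction i generalizing l j with
  | zero => unfold hcn; split_ifs <;> simp
  | succ i ih =>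
    have h0 := ih l (j - 1)
    have h1 := ih (l + 3 ^ (j - 1)) (j - 1)
    have h2 := ih (l + 2 * 3 ^ (j - 1)) (j - 1)
    rw [hcn, pow_succ]
    omega

lemma hcn_zero (G : Finset ℕ) (i l j : ℕ) (hij : i ≤ j) (h : zc G l (l + 3 ^ j) = 0) :
    hcn G i l j = 0 := by
  induction i generalizing l j with
  | zero => unfold hcn; rw [if_pos h]
  | succ i ih =>
    obtain ⟨j', rfl⟩ : ∃ j', j = j' + 1 := ⟨j - 1, by omega⟩
    rw [hcn, Nat.add_sub_cancel]
    have e3 : 3 ^ (j' + 1) = 3 * 3 ^ j' := by rw [pow_succ]; ring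
    rw [e3] at h
    have z0 := zc_mono G (a := l) (b := l) (c := l + 3 ^ j') (d := l + 3 * 3 ^ j') le_rfl (by omega)
    have z1 := zc_mono G (a := l) (b := l + 3 ^ j') (c := l + 3 ^ j' + 3 ^ j')
      (d := l + 3 * 3 ^ j') (by omega) (by omega)
    have z2 := zc_mono G (a := l) (b := l + 2 * 3 ^ j') (c := l + 2 * 3 ^ j' + 3 ^ j')
      (d := l + 3 * 3 ^ j') (by omega) (by omega)
    rw [ih l j' (by omega) (by omega), ih (l + 3 ^ j') j' (by omega) (by omega),
      ih (l + 2 * 3 ^ j') j' (by omega) (by omega)]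

/-- A node whose middle third meets `G` has many good pairs. -/
lemma good_node {tm : ℕ → ℕ} {G Z : Finset ℕ} {l j : ℕ} (hl : OC tm l (j + 1))
    (hne : zc G (l + 3 ^ j) (l + 2 * 3 ^ j) ≠ 0) :
    (gp tm G Z l (l + 3 ^ j)).card + (gp tm G Z (l + 3 ^ j) (l + 2 * 3 ^ j)).card +
      (gp tm G Z (l + 2 * 3 ^ j) (l + 3 * 3 ^ j)).card + (3 ^ j - 3 ^ j / 2) ≤
      (gp tm G Z l (l + 3 * 3 ^ j)).card + zc Z l (l + 3 * 3 ^ j) := by
  obtain ⟨L, hL⟩ : ∃ L, L = 3 ^ j := ⟨_, rfl⟩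
  have hLp : 0 < L := by rw [hL]; positivity
  have e3 : 3 ^ (j + 1) = 3 * L := by rw [pow_succ, hL]; ring
  rw [← hL] at hne ⊢
  have hne' : (G.filter (fun g => l + L ≤ g ∧ g < l + 2 * L)).Nonempty := by
    rw [← Finset.card_pos]
    exact Nat.pos_of_ne_zero hne
  obtain ⟨v, hv, hvmin⟩ := Finset.exists_min_image _ (fun g => sg j (g - (l + L))) hne'
  simp only [Finset.mem_filter] at hv hvmin
  obtain ⟨hvG, hv1, hv2⟩ := hv
  have hgu := gu_card Z (v := v) (lam := L) (a := l) (b := l + 3 * L) (by omega) (by omega)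
  have hthree := gp_three tm G Z l L
    ((gu Z v L).map ⟨fun d => (v, d), fun x y h => by simpa using h⟩) (by
      intro x hx
      simp only [Finset.mem_map, gu, Finset.mem_filter, Finset.mem_Ioc] at hx
      obtain ⟨d, ⟨⟨h3, h4⟩, h5, h6⟩, rfl⟩ := hx
      simp only [gp, Finset.mem_filter, Finset.mem_product, Finset.mem_range]
      refine ⟨⟨hvG, ?_⟩, ?_, ?_, ?_, ?_, h5, h6⟩
      · show d < l + 3 * L + 1
        omega
      · show 1 ≤ d
        omega
      · show l + d ≤ v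
        omega
      · show v + d ≤ l + 3 * L
        omega
      · intro g' hg' h7 h8
        have h7' : v < g' + d := h7
        have h8' : g' < v + d := h8
        show tm v ≤ tm g'
        -- compare the times
        have key : sg (j + 1) (v - l) ≤ sg (j + 1) (g' - l) := by
          have ev : v - l = 1 * 3 ^ j + (v - (l + L)) := by rw [← hL]; omega
          rw [ev, sg_child (by rw [← hL]; omega)]
          have hb1 : bt 1 = 0 := by decide
          rw [hb1, zero_mul, zero_add]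
          by_cases hm : l + L ≤ g' ∧ g' < l + 2 * L
          · have eg : g' - l = 1 * 3 ^ j + (g' - (l + L)) := by rw [← hL]; omega
            rw [eg, sg_child (by rw [← hL]; omega), hb1, zero_mul, zero_add]
            exact hvmin g' ⟨hg', hm⟩
          · have hs := sg_lt j (v - (l + L)) (by rw [← hL]; omega)
            by_cases hlo : g' < l + L
            · have eg : g' - l = 0 * 3 ^ j + (g' - l) := by omega
              rw [eg, sg_child (by rw [← hL]; omega)]
              have hb0 : bt 0 = 1 := by decide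
              rw [hb0]; omega
            · have eg : g' - l = 2 * 3 ^ j + (g' - (l + 2 * L)) := by rw [← hL]; omega
              rw [eg, sg_child (by rw [← hL]; omega)]
              have hb2 : bt 2 = 2 := by decide
              rw [hb2]; omega
        have := hl (v - l) (g' - l) (by rw [e3]; omega) (by rw [e3]; omega) key
        rwa [show l + (v - l) = v by omega, show l + (g' - l) = g' by omega] at this) (by
      intro x hx
      simp only [Finset.mem_map, gu, Finset.mem_filter, Finset.mem_Ioc] at hx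
      obtain ⟨d, ⟨⟨h3, h4⟩, h5, h6⟩, rfl⟩ := hx
      show L < 2 * d
      omega)
  rw [Finset.card_map] at hthree
  omega

/-- The count of the good pairs on a node in terms of the number of hit descendants. -/
lemma claimB (tm : ℕ → ℕ) (G Z : Finset ℕ) : ∀ i j l : ℕ, i ≤ j → OC tm l j →
    i * (hcn G i l j * 3 ^ (j - i)) ≤ 6 * (gp tm G Z l (l + 3 ^ j)).card
      + 6 * i * zc Z l (l + 3 ^ j) + 2 * 3 ^ j := by
  intro i
  induction i with
  | zero => intro j l _ _; simp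
  | succ i ih =>
    intro j l hij hl
    obtain ⟨j', rfl⟩ : ∃ j', j = j' + 1 := ⟨j - 1, by omega⟩
    have hij' : i ≤ j' := by omega
    have i0 := ih j' l hij' (by simpa using hl.child (i := 0) (by norm_num))
    have i1 := ih j' (l + 3 ^ j') hij' (by simpa using hl.child (i := 1) (by norm_num))
    have i2 := ih j' (l + 2 * 3 ^ j') hij' (hl.child (i := 2) (by norm_num))
    have eY : j' + 1 - (i + 1) = j' - i := by omega
    have e3 : 3 ^ (j' + 1) = 3 * 3 ^ j' := by rw [pow_succ]; ring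
    rw [eY, hcn, Nat.add_sub_cancel, e3]
    have b0 := hcn_le G i l j'
    have b1 := hcn_le G i (l + 3 ^ j') j'
    have b2 := hcn_le G i (l + 2 * 3 ^ j') j'
    have hz1 : zc G (l + 3 ^ j') (l + 3 ^ j' + 3 ^ j') = 0 → hcn G i (l + 3 ^ j') j' = 0 :=
      hcn_zero G i (l + 3 ^ j') j' hij'
    have hgn : zc G (l + 3 ^ j') (l + 2 * 3 ^ j') ≠ 0 → _ := good_node (Z := Z) hl
    set h0 := hcn G i l j'
    set h1 := hcn G i (l + 3 ^ j') j'
    set h2 := hcn G i (l + 2 * 3 ^ j') j'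
    obtain ⟨Y, hY⟩ : ∃ Y, Y = 3 ^ (j' - i) := ⟨_, rfl⟩
    have hYL : 3 ^ i * Y = 3 ^ j' := by rw [hY, ← pow_add]; congr 1; omega
    rw [← hY] at i0 i1 i2 ⊢
    have c0 : h0 * Y ≤ 3 ^ j' := by rw [← hYL]; exact Nat.mul_le_mul_right _ b0
    have c1 : h1 * Y ≤ 3 ^ j' := by rw [← hYL]; exact Nat.mul_le_mul_right _ b1
    have c2 : h2 * Y ≤ 3 ^ j' := by rw [← hYL]; exact Nat.mul_le_mul_right _ b2
    obtain ⟨L, hL⟩ : ∃ L, L = 3 ^ j' := ⟨_, rfl⟩
    rw [← hL] at i0 i1 i2 c0 c1 c2 hz1 hgn ⊢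
    rw [show l + L + L = l + 2 * L by ring] at i1 hz1
    rw [show l + 2 * L + L = l + 3 * L by ring] at i2
    have zZ1 := zc_add Z (show l ≤ l + L by omega) (show l + L ≤ l + 2 * L by omega)
    have zZ2 := zc_add Z (show l ≤ l + 2 * L by omega) (show l + 2 * L ≤ l + 3 * L by omega)
    have m2 : 6 * i * zc Z l (l + 3 * L) = 6 * i * zc Z l (l + L)
        + 6 * i * zc Z (l + L) (l + 2 * L) + 6 * i * zc Z (l + 2 * L) (l + 3 * L) := by
      rw [zZ2, zZ1]; ring
    have et : ∀ z, 6 * (i + 1) * z = 6 * i * z + 6 * z := by intro z; ring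
    have eh : (i + 1) * ((h0 + h1 + h2) * Y) = i * (h0 * Y) + i * (h1 * Y) + i * (h2 * Y)
        + h0 * Y + h1 * Y + h2 * Y := by ring
    rw [et, eh]
    by_cases hne : zc G (l + L) (l + 2 * L) = 0
    · have hthree := gp_three tm G Z l L ∅ (Finset.empty_subset _) (by simp)
      rw [Finset.card_empty] at hthree
      have h10 : h1 * Y = 0 := by rw [hz1 hne, zero_mul]
      have h11 : i * (h1 * Y) = 0 := by rw [h10, mul_zero]
      omega
    · have hg := hgn hne
      omega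

/-- The weight of a node. -/
def wt (G Z : Finset ℕ) (l j : ℕ) : ℤ := (zc G l (l + 3 ^ j) : ℤ) - 20 * (zc Z l (l + 3 ^ j) : ℤ)

lemma wt_add (G Z : Finset ℕ) (l j : ℕ) :
    wt G Z l (j + 1) = wt G Z l j + wt G Z (l + 3 ^ j) j + wt G Z (l + 2 * 3 ^ j) j := by
  have e3 : 3 ^ (j + 1) = 3 * 3 ^ j := by rw [pow_succ]; ring
  obtain ⟨L, hL⟩ : ∃ L, L = 3 ^ j := ⟨_, rfl⟩
  unfold wt
  rw [e3, ← hL]
  have zG1 := zc_add G (show l ≤ l + L by omega) (show l + L ≤ l + 2 * L by omega)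
  have zG2 := zc_add G (show l ≤ l + 2 * L by omega) (show l + 2 * L ≤ l + 3 * L by omega)
  have zZ1 := zc_add Z (show l ≤ l + L by omega) (show l + L ≤ l + 2 * L by omega)
  have zZ2 := zc_add Z (show l ≤ l + 2 * L by omega) (show l + 2 * L ≤ l + 3 * L by omega)
  rw [show l + L + L = l + 2 * L by ring, show l + 2 * L + L = l + 3 * L by ring, zG2, zG1,
    zZ2, zZ1]
  push_cast
  ring

/-- If the weights of all descendants are small then so is the weight of the node. -/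
lemma wt_le (G Z : Finset ℕ) (c B : ℤ) (hc : 0 ≤ c) : ∀ i j l : ℕ, i ≤ j →
    (∀ m, m < 3 ^ i → c * wt G Z (l + m * 3 ^ (j - i)) (j - i) ≤ B) →
    c * wt G Z l j ≤ (hcn G i l j : ℤ) * B := by
  intro i
  induction i with
  | zero =>
    intro j l _ h
    have h1 := h 0 (by norm_num)
    rw [zero_mul, add_zero, Nat.sub_zero] at h1
    unfold hcn
    split_ifs with h2
    · have : wt G Z l j ≤ 0 := by
        unfold wt
        rw [h2]
        have : (0 : ℤ) ≤ (zc Z l (l + 3 ^ j) : ℤ) := by positivity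
        push_cast
        linarith
      have := mul_nonneg hc (neg_nonneg.mpr this)
      push_cast
      linarith
    · push_cast
      linarith
  | succ i ih =>
    intro j l hij h
    obtain ⟨j', rfl⟩ : ∃ j', j = j' + 1 := ⟨j - 1, by omega⟩
    have hij' : i ≤ j' := by omega
    rw [show j' + 1 - (i + 1) = j' - i by omega] at h
    have hch : ∀ r, r < 3 → c * wt G Z (l + r * 3 ^ j') j' ≤ (hcn G i (l + r * 3 ^ j') j' : ℤ) * B := by
      intro r hr
      apply ih j' _ hij'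
      intro m hm
      have e1 : l + r * 3 ^ j' + m * 3 ^ (j' - i) = l + (r * 3 ^ i + m) * 3 ^ (j' - i) := by
        have : 3 ^ j' = 3 ^ i * 3 ^ (j' - i) := by rw [← pow_add]; congr 1; omega
        rw [this]; ring
      rw [e1]
      apply h
      rw [pow_succ]
      have : r * 3 ^ i ≤ 2 * 3 ^ i := Nat.mul_le_mul_right _ (by omega)
      omega
    have h0 := hch 0 (by norm_num)
    have h1 := hch 1 (by norm_num)
    have h2 := hch 2 (by norm_num)
    rw [zero_mul, add_zero] at h0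
    rw [one_mul] at h1
    rw [wt_add, hcn, Nat.add_sub_cancel]
    push_cast
    linarith

/-- The density increment. -/
lemma exists_node (G Z : Finset ℕ) (J t t1 : ℕ) (ht1 : t1 = 30 * J + 10) : ∀ a j m : ℕ,
    j ≤ t → m < 3 ^ (t - j) → (a + 1) * t1 ≤ j →
    (3 : ℤ) ^ j ≤ 2 ^ a * wt G Z (m * 3 ^ j) j →
    ∃ j' m', t1 ≤ j' ∧ j' ≤ t ∧ m' < 3 ^ (t - j') ∧
      J * 3 ^ j' ≤ (gp (sg t) G Z (m' * 3 ^ j') (m' * 3 ^ j' + 3 ^ j')).card := by
  intro a
  induction a with
  | zero =>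
    intro j m hj hm haj hw
    rw [zero_add, one_mul] at haj
    rw [pow_zero, one_mul] at hw
    refine ⟨j, m, haj, hj, hm, ?_⟩
    -- every descendant is hit
    have h1 := wt_le G Z 1 (3 ^ (j - t1)) (by norm_num) t1 j (m * 3 ^ j) haj (by
      intro m' _
      rw [one_mul]
      unfold wt
      have h2 := zc_le G (a := m * 3 ^ j + m' * 3 ^ (j - t1))
        (b := m * 3 ^ j + m' * 3 ^ (j - t1) + 3 ^ (j - t1))
      have h3 : (zc G (m * 3 ^ j + m' * 3 ^ (j - t1))
        (m * 3 ^ j + m' * 3 ^ (j - t1) + 3 ^ (j - t1)) : ℤ) ≤ 3 ^ (j - t1) := by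
        have hp3 : 0 < 3 ^ (j - t1) := by positivity
        have : zc G (m * 3 ^ j + m' * 3 ^ (j - t1))
          (m * 3 ^ j + m' * 3 ^ (j - t1) + 3 ^ (j - t1)) ≤ 3 ^ (j - t1) := by omega
        exact_mod_cast this
      have h4 : (0 : ℤ) ≤ (zc Z (m * 3 ^ j + m' * 3 ^ (j - t1))
        (m * 3 ^ j + m' * 3 ^ (j - t1) + 3 ^ (j - t1)) : ℤ) := by positivity
      linarith)
    rw [one_mul] at h1
    have h5 : (3 : ℤ) ^ j ≤ (hcn G t1 (m * 3 ^ j) j : ℤ) * 3 ^ (j - t1) := hw.trans h1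
    have h6 : 3 ^ j ≤ hcn G t1 (m * 3 ^ j) j * 3 ^ (j - t1) := by exact_mod_cast h5
    have h7 := claimB (sg t) G Z t1 j (m * 3 ^ j) haj (oc_aligned hj hm)
    have h8 : 20 * zc Z (m * 3 ^ j) (m * 3 ^ j + 3 ^ j) ≤ 3 ^ j := by
      have h9 := zc_le G (a := m * 3 ^ j) (b := m * 3 ^ j + 3 ^ j)
      have h10 : (0 : ℤ) < 3 ^ j := by positivity
      have h11 : (0 : ℤ) < wt G Z (m * 3 ^ j) j := lt_of_lt_of_le h10 hw
      unfold wt at h11
      omega
    set z := zc Z (m * 3 ^ j) (m * 3 ^ j + 3 ^ j)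
    set g := (gp (sg t) G Z (m * 3 ^ j) (m * 3 ^ j + 3 ^ j)).card
    have h12 : t1 * 3 ^ j ≤ t1 * (hcn G t1 (m * 3 ^ j) j * 3 ^ (j - t1)) :=
      Nat.mul_le_mul_left _ h6
    have h13 : t1 * (20 * z) ≤ t1 * 3 ^ j := Nat.mul_le_mul_left _ h8
    have h14 : t1 * 3 ^ j = 30 * (J * 3 ^ j) + 10 * 3 ^ j := by rw [ht1]; ring
    have h15 : t1 * (20 * z) = 20 * (t1 * z) := by ring
    have h16 : 6 * t1 * z = 6 * (t1 * z) := by ring
    rw [h16] at h7
    rw [h15] at h13
    omega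
  | succ a ih =>
    intro j m hj hm haj hw
    have hat : (a + 1 + 1) * t1 = (a + 1) * t1 + t1 := by ring
    have ht1j : t1 ≤ j := by
      have : 0 ≤ (a + 1) * t1 := Nat.zero_le _
      omega
    by_cases hh : 3 ^ t1 ≤ 2 * hcn G t1 (m * 3 ^ j) j
    · refine ⟨j, m, ht1j, hj, hm, ?_⟩
      have h6 : 3 ^ j ≤ 2 * (hcn G t1 (m * 3 ^ j) j * 3 ^ (j - t1)) := by
        have e : 3 ^ j = 3 ^ t1 * 3 ^ (j - t1) := by rw [← pow_add]; congr 1; omega
        calc 3 ^ j = 3 ^ t1 * 3 ^ (j - t1) := e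
          _ ≤ (2 * hcn G t1 (m * 3 ^ j) j) * 3 ^ (j - t1) := Nat.mul_le_mul_right _ hh
          _ = _ := by ring
      have h7 := claimB (sg t) G Z t1 j (m * 3 ^ j) ht1j (oc_aligned hj hm)
      have h8 : 20 * zc Z (m * 3 ^ j) (m * 3 ^ j + 3 ^ j) ≤ 3 ^ j := by
        have h9 := zc_le G (a := m * 3 ^ j) (b := m * 3 ^ j + 3 ^ j)
        have h10 : (0 : ℤ) < 3 ^ j := by positivity
        have h11 : (0 : ℤ) < wt G Z (m * 3 ^ j) j := by
          have h12 : (0 : ℤ) < 2 ^ (a + 1) * wt G Z (m * 3 ^ j) j := lt_of_lt_of_le h10 hw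
          exact (mul_pos_iff_of_pos_left (by positivity)).mp h12
        unfold wt at h11
        omega
      set z := zc Z (m * 3 ^ j) (m * 3 ^ j + 3 ^ j)
      set g := (gp (sg t) G Z (m * 3 ^ j) (m * 3 ^ j + 3 ^ j)).card
      have h12 : t1 * 3 ^ j ≤ t1 * (2 * (hcn G t1 (m * 3 ^ j) j * 3 ^ (j - t1))) :=
        Nat.mul_le_mul_left _ h6
      have h13 : t1 * (20 * z) ≤ t1 * 3 ^ j := Nat.mul_le_mul_left _ h8
      have h14 : t1 * 3 ^ j = 30 * (J * 3 ^ j) + 10 * 3 ^ j := by rw [ht1]; ring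
      have h15 : t1 * (20 * z) = 20 * (t1 * z) := by ring
      have h16 : 6 * t1 * z = 6 * (t1 * z) := by ring
      have h17 : t1 * (2 * (hcn G t1 (m * 3 ^ j) j * 3 ^ (j - t1))) =
        2 * (t1 * (hcn G t1 (m * 3 ^ j) j * 3 ^ (j - t1))) := by ring
      rw [h16] at h7
      rw [h15] at h13
      rw [h17] at h12
      omega
    · push Not at hh
      -- some descendant is denser
      by_cases hex : ∃ m', m' < 3 ^ t1 ∧
          (3 : ℤ) ^ (j - t1) < 2 ^ a * wt G Z (m * 3 ^ j + m' * 3 ^ (j - t1)) (j - t1)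
      · obtain ⟨m', hm', hw'⟩ := hex
        have e1 : m * 3 ^ j + m' * 3 ^ (j - t1) = (m * 3 ^ t1 + m') * 3 ^ (j - t1) := by
          have : 3 ^ j = 3 ^ t1 * 3 ^ (j - t1) := by rw [← pow_add]; congr 1; omega
          rw [this]; ring
        rw [e1] at hw'
        apply ih (j - t1) (m * 3 ^ t1 + m') (by omega) _ (by omega) hw'.le
        have e2 : t - (j - t1) = (t - j) + t1 := by omega
        rw [e2, pow_add]
        have : (m + 1) * 3 ^ t1 ≤ 3 ^ (t - j) * 3 ^ t1 := Nat.mul_le_mul_right _ hm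
        rw [add_mul] at this
        omega
      · push Not at hex
        exfalso
        have h1 := wt_le G Z (2 ^ a) (3 ^ (j - t1)) (by positivity) t1 j
          (m * 3 ^ j) ht1j hex
        have h2 : (2 : ℤ) ^ (a + 1) * wt G Z (m * 3 ^ j) j =
          2 * (2 ^ a * wt G Z (m * 3 ^ j) j) := by rw [pow_succ]; ring
        rw [h2] at hw
        have h3 : (2 : ℤ) * (hcn G t1 (m * 3 ^ j) j : ℤ) * 3 ^ (j - t1) < 3 ^ j := by
          have h4 : (2 : ℤ) * (hcn G t1 (m * 3 ^ j) j : ℤ) < 3 ^ t1 := by exact_mod_cast hh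
          have h5 : (3 : ℤ) ^ j = 3 ^ t1 * 3 ^ (j - t1) := by rw [← pow_add]; congr 1; omega
          rw [h5]
          exact mul_lt_mul_of_pos_right h4 (by positivity)
        linarith

end Pool.Agent.H39.QT
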